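import Mathlib

/-!
# Labelled and unlabelled copies
-/

namespace Pool.Agent.H.MP_e6b4fa_co

open Finset SimpleGraph

variable {V W : Type*}

/-- Labelled copies of `H` in `G` are `|Aut H|` times the unlabelled ones. -/
theorem labelled_eq_copyCount_mul [Fintype V] [Fintype W] [DecidableEq W]
    (G : SimpleGraph V) (H : SimpleGraph W) [Fintype (H ≃g H)] :
    G.labelledCopyCount H = G.copyCount H * Fintype.card (H ≃g H) := by
  classical
  rw [copyCount_eq_card_image_copyToSubgraph, labelledCopyCount]
  have key : ∀ (i j : Fintype (H.Copy G)), @Fintype.card _ i = #(@Finset.univ _ j) := by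
    intro i j
    rw [Subsingleton.elim i j]
    rfl
  rw [key _ inferInstance]
  rw [Finset.card_eq_sum_card_image (f := Copy.toSubgraph) (s := (Finset.univ : Finset (H.Copy G)))]
  rw [Finset.sum_const_nat (m := Fintype.card (H ≃g H))]
  intro G' hG'
  obtain ⟨f₀, -, rfl⟩ := Finset.mem_image.1 hG'
  rw [← Finset.card_univ (α := (H ≃g H))]
  symm
  refine Finset.card_bij (fun σ _ => f₀.comp σ.toCopy) ?_ ?_ ?_
  · intro σ _
    simp only [Finset.mem_filter, Finset.mem_univ, true_and]
    ext a b
    · simp only [Subgraph.map_verts, Subgraph.verts_top, Set.image_univ, Set.mem_range]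
      constructor
      · rintro ⟨w, rfl⟩
        exact ⟨σ w, rfl⟩
      · rintro ⟨w, rfl⟩
        refine ⟨σ.symm w, ?_⟩
        show f₀ (σ (σ.symm w)) = f₀ w
        simp
    · simp only [Subgraph.map_adj, Relation.Map, Subgraph.top_adj]
      constructor
      · rintro ⟨c, d, hcd, rfl, rfl⟩
        exact ⟨σ c, σ d, σ.map_adj_iff.2 hcd, rfl, rfl⟩
      · rintro ⟨c, d, hcd, rfl, rfl⟩
        refine ⟨σ.symm c, σ.symm d, σ.symm.map_adj_iff.2 hcd, ?_, ?_⟩
        · show f₀ (σ (σ.symm c)) = f₀ c
          simp
        · show f₀ (σ (σ.symm d)) = f₀ d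
          simp
  · intro σ _ τ _ h
    ext w
    have := DFunLike.congr_fun h w
    exact f₀.injective this
  · intro f hf
    simp only [Finset.mem_filter, Finset.mem_univ, true_and] at hf
    -- build the automorphism
    have hr : ∀ w, ∃ w', f₀ w' = f w := by
      intro w
      have : f w ∈ (f.toSubgraph).verts := by
        simp only [Subgraph.map_verts, Subgraph.verts_top, Set.image_univ, Set.mem_range]
        exact ⟨w, rfl⟩
      rw [hf] at this
      simp only [Subgraph.map_verts, Subgraph.verts_top, Set.image_univ, Set.mem_range] at this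
      exact this
    choose g hg using hr
    have ginj : Function.Injective g := by
      intro a b hab
      apply f.injective
      show f a = f b
      rw [← hg a, ← hg b, hab]
    have gbij : Function.Bijective g := ginj.bijective_of_finite
    have hadj : ∀ a b, H.Adj (g a) (g b) ↔ H.Adj a b := by
      intro a b
      have h1 : f.toSubgraph.Adj (f a) (f b) ↔ H.Adj a b := by
        simp only [Subgraph.map_adj, Relation.Map, Subgraph.top_adj]
        constructor
        · rintro ⟨c, d, hcd, hc, hd⟩
          have hc' := f.injective hc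
          have hd' := f.injective hd
          subst hc' hd'
          exact hcd
        · intro h
          exact ⟨a, b, h, rfl, rfl⟩
      have h2 : f₀.toSubgraph.Adj (f₀ (g a)) (f₀ (g b)) ↔ H.Adj (g a) (g b) := by
        simp only [Subgraph.map_adj, Relation.Map, Subgraph.top_adj]
        constructor
        · rintro ⟨c, d, hcd, hc, hd⟩
          have hc' := f₀.injective hc
          have hd' := f₀.injective hd
          rw [← hc', ← hd']
          exact hcd
        · intro h
          exact ⟨g a, g b, h, rfl, rfl⟩
      rw [← h1, ← h2, hg, hg, hf]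
    refine ⟨⟨Equiv.ofBijective g gbij, by intro a b; exact hadj a b⟩, Finset.mem_univ _, ?_⟩
    ext w
    exact hg w

end Pool.Agent.H.MP_e6b4fa_co
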