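import Mathlib
import Pool.Agent.H.MP_e6b4fa_co.Labelled

/-!
# Labelled counting functions
-/

namespace Pool.Agent.H.MP_e6b4fa_co

open Finset SimpleGraph

variable {V W : Type*}

open Classical in
/-- `1` if `φ` maps edges of `H` to edges of `G`, else `0`. -/
noncomputable def hom01 (H : SimpleGraph W) (G : SimpleGraph V) (φ : W → V) : ℝ :=
  if ∀ a b, H.Adj a b → G.Adj (φ a) (φ b) then 1 else 0

theorem hom01_nonneg (H : SimpleGraph W) (G : SimpleGraph V) (φ : W → V) : 0 ≤ hom01 H G φ := by
  unfold hom01; split_ifs <;> norm_num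

theorem hom01_le_one (H : SimpleGraph W) (G : SimpleGraph V) (φ : W → V) : hom01 H G φ ≤ 1 := by
  unfold hom01; split_ifs <;> norm_num

open Classical in
/-- injective maps `W → V` with all values in `S` -/
noncomputable def injInto (W : Type*) [Fintype W] {V : Type*} [Fintype V] (S : Finset V) :
    Finset (W → V) :=
  (Finset.univ : Finset (W → V)).filter fun φ => Function.Injective φ ∧ ∀ a, φ a ∈ S

theorem mem_injInto [Fintype W] [Fintype V] {S : Finset V} {φ : W → V} :
    φ ∈ injInto W S ↔ Function.Injective φ ∧ ∀ a, φ a ∈ S := by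
  simp [injInto]

/-- Signed labelled count of `H` on `S`: copies in `G` minus copies in the complement. -/
noncomputable def D [Fintype W] [Fintype V] (H : SimpleGraph W) (G : SimpleGraph V)
    (S : Finset V) : ℝ :=
  ∑ φ ∈ injInto W S, (hom01 H G φ - hom01 H Gᶜ φ)

theorem sum_hom01_eq [Fintype W] [Fintype V] (H : SimpleGraph W) (G : SimpleGraph V)
    (S : Finset V) :
    ∑ φ ∈ injInto W S, hom01 H G φ = ((G.induce (S : Set V)).labelledCopyCount H : ℝ) := by
  classical
  have h0 : ∑ φ ∈ injInto W S, hom01 H G φ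
      = (#((injInto W S).filter fun φ => ∀ a b, H.Adj a b → G.Adj (φ a) (φ b)) : ℝ) := by
    rw [Finset.card_filter]
    push_cast
    refine Finset.sum_congr rfl fun φ _ => ?_
    unfold hom01
    by_cases h : ∀ a b, H.Adj a b → G.Adj (φ a) (φ b)
    · rw [if_pos h, if_pos h]
    · rw [if_neg h, if_neg h]
  rw [h0, labelledCopyCount, Fintype.card_eq_nat_card]
  have hcard : Nat.card (H.Copy (G.induce (S : Set V))) =
      #(Finset.univ : Finset (H.Copy (G.induce (S : Set V)))) := by
    rw [Nat.card_eq_fintype_card]; rfl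
  rw [hcard]
  congr 1
  symm
  refine Finset.card_bij (fun f _ => fun w => (f w : V)) ?_ ?_ ?_
  · intro f _
    simp only [Finset.mem_filter, mem_injInto]
    refine ⟨⟨?_, ?_⟩, ?_⟩
    · intro a b hab
      exact f.injective (Subtype.ext hab)
    · intro a
      exact (f a).2
    · intro a b hab
      have := f.toHom.map_adj hab
      exact this
  · intro f _ g _ h
    ext w
    exact congrFun h w
  · intro φ hφ
    simp only [Finset.mem_filter, mem_injInto] at hφ
    obtain ⟨⟨hinj, hS⟩, hadj⟩ := hφ
    refine ⟨⟨⟨fun w => ⟨φ w, hS w⟩, ?_⟩, ?_⟩, Finset.mem_univ _, rfl⟩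
    · intro a b hab
      exact hadj a b hab
    · intro a b hab
      exact hinj (congrArg Subtype.val hab)

theorem D_eq [Fintype W] [Fintype V] [DecidableEq W] (H : SimpleGraph W) [Fintype (H ≃g H)]
    (G : SimpleGraph V) (S : Finset V) :
    D H G S = (((G.induce (S : Set V)).copyCount H : ℝ) - ((Gᶜ.induce (S : Set V)).copyCount H : ℝ))
      * (Fintype.card (H ≃g H) : ℝ) := by
  unfold D
  rw [Finset.sum_sub_distrib, sum_hom01_eq, sum_hom01_eq, labelled_eq_copyCount_mul,
    labelled_eq_copyCount_mul]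
  push_cast
  ring

end Pool.Agent.H.MP_e6b4fa_co
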