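import Mathlib

/-!
# Bounded differences on the Boolean cube
-/

namespace Pool.Agent.H.MP_e6b4fa_co

open Finset

theorem sum_cons_bool {n : ℕ} (F : (Fin (n + 1) → Bool) → ℝ) :
    ∑ b, F b = ∑ b : Fin n → Bool, (F (Fin.cons true b) + F (Fin.cons false b)) := by
  rw [← (Fin.consEquiv (fun _ : Fin (n + 1) => Bool)).sum_comp, Fintype.sum_prod_type,
    Fintype.sum_bool, ← Finset.sum_add_distrib]
  rfl

theorem mgf_fin (c l : ℝ) : ∀ (n : ℕ) (f : (Fin n → Bool) → ℝ),
    (∀ b i, |f (Function.update b i true) - f (Function.update b i false)| ≤ c) →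
    ∑ b, Real.exp (l * f b) ≤
      2 ^ n * Real.exp (l * ((∑ b, f b) / 2 ^ n) + n * (l ^ 2 * c ^ 2 / 8)) := by
  intro n
  induction n with
  | zero =>
    intro f _
    simp
  | succ n ih =>
    intro f hf
    set g : (Fin n → Bool) → ℝ := fun b => (f (Fin.cons true b) + f (Fin.cons false b)) / 2 with hg
    set h : (Fin n → Bool) → ℝ := fun b => (f (Fin.cons true b) - f (Fin.cons false b)) / 2 with hh
    have hhc : ∀ b, |h b| ≤ c / 2 := by
      intro b
      have := hf (Fin.cons true b) 0
      rw [Fin.update_cons_zero, Fin.update_cons_zero] at this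
      rw [hh]
      simp only
      rw [abs_div, abs_of_pos (by norm_num : (0 : ℝ) < 2)]
      linarith
    have hgc : ∀ b i, |g (Function.update b i true) - g (Function.update b i false)| ≤ c := by
      intro b i
      have h1 := hf (Fin.cons true b) i.succ
      have h2 := hf (Fin.cons false b) i.succ
      rw [← Fin.cons_update, ← Fin.cons_update] at h1 h2
      rw [hg]
      simp only
      rw [abs_le] at h1 h2 ⊢
      constructor <;> linarith [h1.1, h1.2, h2.1, h2.2]
    have hsum : ∑ b, f b = 2 * ∑ b, g b := by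
      rw [sum_cons_bool, Finset.mul_sum]
      refine Finset.sum_congr rfl fun b _ => ?_
      rw [hg]; ring
    have hstep : ∀ b, Real.exp (l * f (Fin.cons true b)) + Real.exp (l * f (Fin.cons false b)) ≤
        2 * Real.exp (l ^ 2 * c ^ 2 / 8) * Real.exp (l * g b) := by
      intro b
      have e1 : l * f (Fin.cons true b) = l * g b + l * h b := by rw [hg, hh]; ring
      have e2 : l * f (Fin.cons false b) = l * g b + -(l * h b) := by rw [hg, hh]; ring
      rw [e1, e2, Real.exp_add, Real.exp_add]
      have hcosh : Real.exp (l * h b) + Real.exp (-(l * h b)) = 2 * Real.cosh (l * h b) := by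
        rw [Real.cosh_eq]; ring
      have hc1 : Real.cosh (l * h b) ≤ Real.exp (l ^ 2 * c ^ 2 / 8) := by
        refine (Real.cosh_le_exp_half_sq _).trans (Real.exp_le_exp.2 ?_)
        have : (h b) ^ 2 ≤ (c / 2) ^ 2 := by
          rw [← sq_abs]
          exact pow_le_pow_left₀ (abs_nonneg _) (hhc b) 2
        nlinarith [sq_nonneg l, this]
      have : Real.exp (l * g b) * Real.exp (l * h b) + Real.exp (l * g b) * Real.exp (-(l * h b))
          = Real.exp (l * g b) * (2 * Real.cosh (l * h b)) := by
        rw [← hcosh]; ring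
      rw [this]
      nlinarith [Real.exp_pos (l * g b), hc1]
    rw [sum_cons_bool]
    calc ∑ b : Fin n → Bool, (Real.exp (l * f (Fin.cons true b)) +
          Real.exp (l * f (Fin.cons false b)))
        ≤ ∑ b : Fin n → Bool, 2 * Real.exp (l ^ 2 * c ^ 2 / 8) * Real.exp (l * g b) :=
          Finset.sum_le_sum fun b _ => hstep b
      _ = 2 * Real.exp (l ^ 2 * c ^ 2 / 8) * ∑ b : Fin n → Bool, Real.exp (l * g b) := by
          rw [Finset.mul_sum]
      _ ≤ 2 * Real.exp (l ^ 2 * c ^ 2 / 8) *
          (2 ^ n * Real.exp (l * ((∑ b, g b) / 2 ^ n) + n * (l ^ 2 * c ^ 2 / 8))) :=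
          mul_le_mul_of_nonneg_left (ih g hgc) (by positivity)
      _ = 2 ^ (n + 1) * (Real.exp (l ^ 2 * c ^ 2 / 8) *
            Real.exp (l * ((∑ b, g b) / 2 ^ n) + n * (l ^ 2 * c ^ 2 / 8))) := by ring
      _ = 2 ^ (n + 1) * Real.exp (l * ((∑ b, f b) / 2 ^ (n + 1)) +
            ((n + 1 : ℕ) : ℝ) * (l ^ 2 * c ^ 2 / 8)) := by
          rw [← Real.exp_add, hsum]
          congr 2
          push_cast
          have : (2 : ℝ) ^ n ≠ 0 := by positivity
          field_simp
          ring

theorem mgf {ι : Type*} [Fintype ι] [DecidableEq ι] (c l : ℝ) (f : (ι → Bool) → ℝ)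
    (hf : ∀ b i, |f (Function.update b i true) - f (Function.update b i false)| ≤ c)
    (h0 : ∑ b, f b = 0) :
    ∑ b, Real.exp (l * f b) ≤
      2 ^ (Fintype.card ι) * Real.exp (Fintype.card ι * (l ^ 2 * c ^ 2 / 8)) := by
  classical
  set n := Fintype.card ι with hn
  let e : ι ≃ Fin n := Fintype.equivFin ι
  let E : (Fin n → Bool) ≃ (ι → Bool) := e.symm.arrowCongr (Equiv.refl Bool)
  have hE : ∀ b i, E b i = b (e i) := by
    intro b i; rfl
  have key := mgf_fin c l n (fun b => f (E b)) ?_
  · have s1 : ∑ b, Real.exp (l * f (E b)) = ∑ b, Real.exp (l * f b) :=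
      E.sum_comp (fun b => Real.exp (l * f b))
    have s2 : ∑ b, f (E b) = ∑ b, f b := E.sum_comp f
    rw [s1, s2, h0] at key
    simpa using key
  · intro b i
    have hu : ∀ x : Bool, E (Function.update b i x) = Function.update (E b) (e.symm i) x := by
      intro x
      funext j
      rw [hE]
      by_cases hj : j = e.symm i
      · subst hj
        simp
      · rw [Function.update_of_ne hj, hE, Function.update_of_ne]
        intro h
        apply hj
        rw [← h]
        simp
    simp only [hu]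
    exact hf _ _

/-- tail bound -/
theorem tail {ι : Type*} [Fintype ι] [DecidableEq ι] (c t : ℝ) (hc : 0 < c) (ht : 0 < t)
    [Nonempty ι] (f : (ι → Bool) → ℝ)
    (hf : ∀ b i, |f (Function.update b i true) - f (Function.update b i false)| ≤ c)
    (h0 : ∑ b, f b = 0) :
    ((#((Finset.univ : Finset (ι → Bool)).filter fun b => t ≤ f b) : ℕ) : ℝ) ≤
      2 ^ (Fintype.card ι) * Real.exp (-(2 * t ^ 2 / (Fintype.card ι * c ^ 2))) := by
  have hN : (0 : ℝ) < Fintype.card ι := by exact_mod_cast Fintype.card_pos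
  set N : ℝ := (Fintype.card ι : ℝ) with hNdef
  set l : ℝ := 4 * t / (N * c ^ 2) with hl
  have hlpos : 0 < l := by positivity
  have h1 : ((#((Finset.univ : Finset (ι → Bool)).filter fun b => t ≤ f b) : ℕ) : ℝ) *
      Real.exp (l * t) ≤ ∑ b, Real.exp (l * f b) := by
    rw [← nsmul_eq_mul, ← Finset.sum_const]
    calc ∑ _b ∈ (Finset.univ : Finset (ι → Bool)).filter (fun b => t ≤ f b), Real.exp (l * t)
        ≤ ∑ b ∈ (Finset.univ : Finset (ι → Bool)).filter (fun b => t ≤ f b),
            Real.exp (l * f b) := by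
          refine Finset.sum_le_sum fun b hb => Real.exp_le_exp.2 ?_
          have := (Finset.mem_filter.1 hb).2
          nlinarith
      _ ≤ ∑ b, Real.exp (l * f b) :=
          Finset.sum_le_sum_of_subset_of_nonneg (Finset.filter_subset _ _)
            (fun b _ _ => (Real.exp_pos _).le)
  have h2 := mgf c l f hf h0
  have h3 : ((#((Finset.univ : Finset (ι → Bool)).filter fun b => t ≤ f b) : ℕ) : ℝ) ≤
      2 ^ (Fintype.card ι) * Real.exp (N * (l ^ 2 * c ^ 2 / 8)) * Real.exp (-(l * t)) := by
    rw [Real.exp_neg, ← div_eq_mul_inv, le_div_iff₀ (Real.exp_pos _)]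
    exact h1.trans h2
  refine h3.trans (le_of_eq ?_)
  rw [mul_assoc, ← Real.exp_add]
  congr 2
  rw [hl]
  field_simp
  ring

end Pool.Agent.H.MP_e6b4fa_co
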