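import Mathlib
import Pool.Agent.H.MP_e6b4fa_co.Basic
import Pool.Agent.H.MP_e6b4fa_co.MGF

/-!
# Upper bound: random graphs
-/

namespace Pool.Agent.H.MP_e6b4fa_co

open Finset SimpleGraph

variable {V W : Type*}

/-- the graph on `V` given by a family of bits on unordered pairs -/
def bitGraph (b : Sym2 V → Bool) : SimpleGraph V where
  Adj u v := u ≠ v ∧ b s(u, v) = true
  symm := ⟨fun u v h => ⟨h.1.symm, by rw [Sym2.eq_swap]; exact h.2⟩⟩
  loopless := ⟨fun u h => h.1 rfl⟩

theorem bitGraph_adj (b : Sym2 V → Bool) (u v : V) :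
    (bitGraph b).Adj u v ↔ u ≠ v ∧ b s(u, v) = true := Iff.rfl

theorem bitGraph_compl (b : Sym2 V → Bool) :
    (bitGraph b)ᶜ = bitGraph (fun e => !(b e)) := by
  ext u v
  rw [compl_adj, bitGraph_adj, bitGraph_adj]
  by_cases h : u = v
  · simp [h]
  · simp [h]

theorem D_compl [Fintype W] [Fintype V] (H : SimpleGraph W) (G : SimpleGraph V)
    (S : Finset V) : D H Gᶜ S = - D H G S := by
  unfold D
  rw [compl_compl, ← Finset.sum_neg_distrib]
  exact Finset.sum_congr rfl fun φ _ => by ring

theorem sum_D_bitGraph [Fintype W] [Fintype V] [DecidableEq V] (H : SimpleGraph W)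
    (S : Finset V) : ∑ b : Sym2 V → Bool, D H (bitGraph b) S = 0 := by
  let E : (Sym2 V → Bool) ≃ (Sym2 V → Bool) := Equiv.piCongrRight (fun _ => Equiv.boolNot)
  have h1 : ∑ b : Sym2 V → Bool, D H (bitGraph (E b)) S = ∑ b : Sym2 V → Bool, D H (bitGraph b) S :=
    E.sum_comp (fun b => D H (bitGraph b) S)
  have h2 : ∀ b : Sym2 V → Bool, D H (bitGraph (E b)) S = - D H (bitGraph b) S := by
    intro b
    rw [← D_compl, bitGraph_compl]
    rfl
  simp only [h2, Finset.sum_neg_distrib] at h1
  linarith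

theorem hom01_congr {H : SimpleGraph W} {G G' : SimpleGraph V} {φ ψ : W → V}
    (h : (∀ a b, H.Adj a b → G.Adj (φ a) (φ b)) ↔ (∀ a b, H.Adj a b → G'.Adj (ψ a) (ψ b))) :
    hom01 H G φ = hom01 H G' ψ := by
  unfold hom01
  by_cases h1 : ∀ a b, H.Adj a b → G.Adj (φ a) (φ b)
  · rw [if_pos h1, if_pos (h.1 h1)]
  · rw [if_neg h1, if_neg (fun h2 => h1 (h.2 h2))]

/-- functions with two prescribed values -/
theorem card_two_prescribed [Fintype W] [DecidableEq W] [Fintype V] [DecidableEq V]
    {a b : W} (hab : a ≠ b) (u v : V) :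
    #((Finset.univ : Finset (W → V)).filter fun φ => φ a = u ∧ φ b = v) ≤
      Fintype.card V ^ (Fintype.card W - 2) := by
  have hcard : Fintype.card {w : W // w ≠ a ∧ w ≠ b} = Fintype.card W - 2 := by
    rw [Fintype.card_subtype]
    have : (Finset.univ.filter fun w : W => w ≠ a ∧ w ≠ b) = Finset.univ \ {a, b} := by
      ext w; simp
    rw [this, Finset.card_sdiff_of_subset (Finset.subset_univ _), Finset.card_pair hab,
      Finset.card_univ]
  rw [← hcard, ← Fintype.card_fun, ← Finset.card_univ]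
  refine Finset.card_le_card_of_injOn (fun φ => fun w => φ w.1) (fun _ _ => Finset.mem_univ _) ?_
  intro φ hφ ψ hψ h
  simp only [Finset.coe_filter, Finset.mem_univ, true_and, Set.mem_ofPred_eq] at hφ hψ
  funext w
  by_cases h1 : w = a
  · rw [h1, hφ.1, hψ.1]
  by_cases h2 : w = b
  · rw [h2, hφ.2, hψ.2]
  exact congrFun h ⟨w, h1, h2⟩

/-- changing a single pair changes the hom indicator sums by a bounded amount -/
theorem abs_sum_hom01_sub_le [Fintype W] [DecidableEq W] [Fintype V] [DecidableEq V]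
    (H : SimpleGraph W) (G G' : SimpleGraph V) (u v : V)
    (hGG' : ∀ x y, s(x, y) ≠ s(u, v) → (G.Adj x y ↔ G'.Adj x y)) (S : Finset V) :
    |∑ φ ∈ injInto W S, (hom01 H G φ - hom01 H G' φ)| ≤
      (Fintype.card W) ^ 2 * (Fintype.card V : ℝ) ^ (Fintype.card W - 2) := by
  classical
  have hzero : ∀ φ : W → V, (¬ ∃ p : W × W, p.1 ≠ p.2 ∧ φ p.1 = u ∧ φ p.2 = v) →
      hom01 H G φ - hom01 H G' φ = 0 := by
    intro φ hφ
    push Not at hφ
    have : (∀ a b, H.Adj a b → G.Adj (φ a) (φ b)) ↔ (∀ a b, H.Adj a b → G'.Adj (φ a) (φ b)) := by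
      refine forall_congr' fun a => forall_congr' fun b => ?_
      refine imp_congr_right fun hab => ?_
      apply hGG'
      intro hs
      rw [Sym2.eq_iff] at hs
      rcases hs with ⟨h1, h2⟩ | ⟨h1, h2⟩
      · exact hφ (a, b) hab.ne h1 h2
      · exact hφ (b, a) hab.ne.symm h2 h1
    rw [hom01_congr this, sub_self]
  have hle : ∀ φ : W → V, |hom01 H G φ - hom01 H G' φ| ≤
      ∑ p ∈ (Finset.univ : Finset (W × W)).filter (fun p => p.1 ≠ p.2),
        (if φ p.1 = u ∧ φ p.2 = v then (1 : ℝ) else 0) := by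
    intro φ
    by_cases h : ∃ p : W × W, p.1 ≠ p.2 ∧ φ p.1 = u ∧ φ p.2 = v
    · obtain ⟨p, hp, h1, h2⟩ := h
      have hp' : p ∈ (Finset.univ : Finset (W × W)).filter (fun p => p.1 ≠ p.2) := by
        simp [hp]
      have h3 : (1 : ℝ) ≤ ∑ p ∈ (Finset.univ : Finset (W × W)).filter (fun p => p.1 ≠ p.2),
        (if φ p.1 = u ∧ φ p.2 = v then (1 : ℝ) else 0) := by
        calc (1 : ℝ) = (if φ p.1 = u ∧ φ p.2 = v then (1 : ℝ) else 0) := by rw [if_pos ⟨h1, h2⟩]
          _ ≤ _ := Finset.single_le_sum (f := fun p : W × W =>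
              (if φ p.1 = u ∧ φ p.2 = v then (1 : ℝ) else 0))
              (fun i _ => by positivity) hp'
      refine le_trans ?_ h3
      rw [abs_le]
      constructor <;> linarith [hom01_nonneg H G φ, hom01_le_one H G φ, hom01_nonneg H G' φ,
        hom01_le_one H G' φ]
    · rw [hzero φ h, abs_zero]
      exact Finset.sum_nonneg fun i _ => by positivity
  calc |∑ φ ∈ injInto W S, (hom01 H G φ - hom01 H G' φ)|
      ≤ ∑ φ ∈ injInto W S, |hom01 H G φ - hom01 H G' φ| := Finset.abs_sum_le_sum_abs _ _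
    _ ≤ ∑ φ : W → V, |hom01 H G φ - hom01 H G' φ| :=
        Finset.sum_le_sum_of_subset_of_nonneg (Finset.subset_univ _) (fun _ _ _ => abs_nonneg _)
    _ ≤ ∑ φ : W → V, ∑ p ∈ (Finset.univ : Finset (W × W)).filter (fun p => p.1 ≠ p.2),
        (if φ p.1 = u ∧ φ p.2 = v then (1 : ℝ) else 0) := Finset.sum_le_sum fun φ _ => hle φ
    _ = ∑ p ∈ (Finset.univ : Finset (W × W)).filter (fun p => p.1 ≠ p.2),
        ∑ φ : W → V, (if φ p.1 = u ∧ φ p.2 = v then (1 : ℝ) else 0) := Finset.sum_comm
    _ ≤ ∑ _p ∈ (Finset.univ : Finset (W × W)).filter (fun p => p.1 ≠ p.2),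
        (Fintype.card V : ℝ) ^ (Fintype.card W - 2) := by
        refine Finset.sum_le_sum fun p hp => ?_
        rw [Finset.sum_boole]
        have := card_two_prescribed (V := V) (Finset.mem_filter.1 hp).2 u v
        exact_mod_cast this
    _ ≤ (Fintype.card W) ^ 2 * (Fintype.card V : ℝ) ^ (Fintype.card W - 2) := by
        rw [Finset.sum_const, nsmul_eq_mul]
        refine mul_le_mul_of_nonneg_right ?_ (by positivity)
        have : #((Finset.univ : Finset (W × W)).filter (fun p => p.1 ≠ p.2)) ≤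
            Fintype.card W ^ 2 := by
          refine (Finset.card_le_univ _).trans ?_
          rw [Fintype.card_prod, sq]
        exact_mod_cast this

theorem abs_D_update_le [Fintype W] [DecidableEq W] [Fintype V] [DecidableEq V]
    (H : SimpleGraph W) (S : Finset V) (b : Sym2 V → Bool) (e : Sym2 V) :
    |D H (bitGraph (Function.update b e true)) S - D H (bitGraph (Function.update b e false)) S| ≤
      2 * (Fintype.card W) ^ 2 * (Fintype.card V : ℝ) ^ (Fintype.card W - 2) := by
  induction e using Sym2.ind with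
  | _ u v =>
  have h1 := abs_sum_hom01_sub_le H (bitGraph (Function.update b s(u, v) true))
    (bitGraph (Function.update b s(u, v) false)) u v (by
      intro x y hxy
      rw [bitGraph_adj, bitGraph_adj, Function.update_of_ne hxy, Function.update_of_ne hxy]) S
  have h2 := abs_sum_hom01_sub_le H (bitGraph (Function.update b s(u, v) true))ᶜ
    (bitGraph (Function.update b s(u, v) false))ᶜ u v (by
      intro x y hxy
      rw [compl_adj, compl_adj, bitGraph_adj, bitGraph_adj, Function.update_of_ne hxy,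
        Function.update_of_ne hxy]) S
  have h3 : D H (bitGraph (Function.update b s(u, v) true)) S -
      D H (bitGraph (Function.update b s(u, v) false)) S =
      ∑ φ ∈ injInto W S, (hom01 H (bitGraph (Function.update b s(u, v) true)) φ -
        hom01 H (bitGraph (Function.update b s(u, v) false)) φ) -
      ∑ φ ∈ injInto W S, (hom01 H (bitGraph (Function.update b s(u, v) true))ᶜ φ -
        hom01 H (bitGraph (Function.update b s(u, v) false))ᶜ φ) := by
    unfold D
    simp only [Finset.sum_sub_distrib]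
    ring
  rw [h3]
  refine (abs_sub _ _).trans ?_
  linarith

theorem exists_graph_all_small [Fintype W] [DecidableEq W] (H : SimpleGraph W)
    (hk : 2 ≤ Fintype.card W) (n : ℕ) (hn : 1 ≤ n) :
    ∃ G : SimpleGraph (Fin n), ∀ S : Finset (Fin n),
      |D H G S| ≤ 2 * (Fintype.card W) ^ 2 * ((n : ℝ) ^ (Fintype.card W - 1) * Real.sqrt n) := by
  classical
  set k := Fintype.card W with hkdef
  set c : ℝ := 2 * (k : ℝ) ^ 2 * (n : ℝ) ^ (k - 2) with hc
  set t : ℝ := 2 * (k : ℝ) ^ 2 * ((n : ℝ) ^ (k - 1) * Real.sqrt n) with ht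
  have hnpos : (0 : ℝ) < n := by exact_mod_cast hn
  have hkpos : (0 : ℝ) < k := by
    have : 0 < k := by omega
    exact_mod_cast this
  have hcpos : 0 < c := by positivity
  have htpos : 0 < t := by positivity
  have : Nonempty (Fin n) := ⟨⟨0, hn⟩⟩
  have : Nonempty (Sym2 (Fin n)) := ⟨s(⟨0, hn⟩, ⟨0, hn⟩)⟩
  set N := Fintype.card (Sym2 (Fin n)) with hN
  have hNle : (N : ℝ) ≤ (n : ℝ) ^ 2 := by
    have h1 : N ≤ n ^ 2 := by
      rw [hN, Sym2.card, Fintype.card_fin, Nat.choose_two_right]
      refine Nat.div_le_of_le_mul ?_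
      have : n + 1 - 1 = n := by omega
      rw [this]
      nlinarith
    exact_mod_cast h1
  have hNpos : (0 : ℝ) < N := by
    have : 0 < N := Fintype.card_pos
    exact_mod_cast this
  -- exponent
  have hexp : 2 * (n : ℝ) ≤ 2 * t ^ 2 / (N * c ^ 2) := by
    rw [le_div_iff₀ (by positivity)]
    have hs : Real.sqrt n ^ 2 = n := Real.sq_sqrt hnpos.le
    have e1 : t ^ 2 = c ^ 2 * ((n : ℝ) ^ 2 * n) := by
      rw [ht, hc]
      have : (n : ℝ) ^ (k - 1) = (n : ℝ) ^ (k - 2) * n := by
        rw [← pow_succ]; congr 1; omega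
      rw [this]
      calc (2 * (k : ℝ) ^ 2 * ((n : ℝ) ^ (k - 2) * n * Real.sqrt n)) ^ 2
          = (2 * (k : ℝ) ^ 2 * (n : ℝ) ^ (k - 2)) ^ 2 * ((n : ℝ) ^ 2 * Real.sqrt n ^ 2) := by ring
        _ = _ := by rw [hs]
    rw [e1]
    have : (N : ℝ) * c ^ 2 ≤ (n : ℝ) ^ 2 * c ^ 2 :=
      mul_le_mul_of_nonneg_right hNle (by positivity)
    nlinarith
  by_contra hcon
  push Not at hcon
  -- for each b there is S with |D| > t
  have hcover : ∀ b : Sym2 (Fin n) → Bool, ∃ S : Finset (Fin n),
      t ≤ D H (bitGraph b) S ∨ t ≤ - D H (bitGraph b) S := by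
    intro b
    obtain ⟨S, hS⟩ := hcon (bitGraph b)
    refine ⟨S, ?_⟩
    rcases lt_abs.1 hS with h | h
    · exact Or.inl h.le
    · exact Or.inr h.le
  have hcount : (2 : ℝ) ^ N ≤ ∑ S : Finset (Fin n),
      (((#((Finset.univ : Finset (Sym2 (Fin n) → Bool)).filter
          fun b => t ≤ D H (bitGraph b) S) : ℕ) : ℝ) +
        ((#((Finset.univ : Finset (Sym2 (Fin n) → Bool)).filter
          fun b => t ≤ - D H (bitGraph b) S) : ℕ) : ℝ)) := by
    have h1 : (Finset.univ : Finset (Sym2 (Fin n) → Bool)) ⊆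
        (Finset.univ : Finset (Finset (Fin n))).biUnion fun S =>
          ((Finset.univ : Finset (Sym2 (Fin n) → Bool)).filter
            fun b => t ≤ D H (bitGraph b) S) ∪
          ((Finset.univ : Finset (Sym2 (Fin n) → Bool)).filter
            fun b => t ≤ - D H (bitGraph b) S) := by
      intro b _
      obtain ⟨S, hS⟩ := hcover b
      simp only [Finset.mem_biUnion, Finset.mem_univ, true_and, Finset.mem_union,
        Finset.mem_filter]
      exact ⟨S, hS⟩
    have h2 : 2 ^ N ≤ ∑ S : Finset (Fin n),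
        (#((Finset.univ : Finset (Sym2 (Fin n) → Bool)).filter
            fun b => t ≤ D H (bitGraph b) S) +
          #((Finset.univ : Finset (Sym2 (Fin n) → Bool)).filter
            fun b => t ≤ - D H (bitGraph b) S)) := by
      calc 2 ^ N = #(Finset.univ : Finset (Sym2 (Fin n) → Bool)) := by
            rw [Finset.card_univ, Fintype.card_fun, Fintype.card_bool]
        _ ≤ _ := Finset.card_le_card h1
        _ ≤ _ := Finset.card_biUnion_le
        _ ≤ _ := Finset.sum_le_sum fun S _ => Finset.card_union_le _ _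
    exact_mod_cast h2
  have htail1 : ∀ S : Finset (Fin n), ((#((Finset.univ : Finset (Sym2 (Fin n) → Bool)).filter
      fun b => t ≤ D H (bitGraph b) S) : ℕ) : ℝ) ≤
      2 ^ N * Real.exp (-(2 * t ^ 2 / (N * c ^ 2))) := by
    intro S
    refine tail c t hcpos htpos (fun b => D H (bitGraph b) S) ?_ (sum_D_bitGraph H S)
    intro b e
    have := abs_D_update_le H S b e
    rw [Fintype.card_fin] at this
    exact this
  have htail2 : ∀ S : Finset (Fin n), ((#((Finset.univ : Finset (Sym2 (Fin n) → Bool)).filter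
      fun b => t ≤ - D H (bitGraph b) S) : ℕ) : ℝ) ≤
      2 ^ N * Real.exp (-(2 * t ^ 2 / (N * c ^ 2))) := by
    intro S
    refine tail c t hcpos htpos (fun b => - D H (bitGraph b) S) ?_ ?_
    · intro b e
      have := abs_D_update_le H S b e
      rw [Fintype.card_fin] at this
      have h2 : (- D H (bitGraph (Function.update b e true)) S) -
          (- D H (bitGraph (Function.update b e false)) S) =
          -(D H (bitGraph (Function.update b e true)) S -
            D H (bitGraph (Function.update b e false)) S) := by ring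
      rw [h2, abs_neg]
      exact this
    · simp only [Finset.sum_neg_distrib, sum_D_bitGraph H S, neg_zero]
  have hfinal : (2 : ℝ) ^ N ≤ 2 ^ n * (2 * (2 ^ N * Real.exp (-(2 * (n : ℝ))))) := by
    calc (2 : ℝ) ^ N ≤ _ := hcount
      _ ≤ ∑ _S : Finset (Fin n), (2 * (2 ^ N * Real.exp (-(2 * (n : ℝ))))) := by
          refine Finset.sum_le_sum fun S _ => ?_
          have h1 := htail1 S
          have h2 := htail2 S
          have h3 : Real.exp (-(2 * t ^ 2 / (N * c ^ 2))) ≤ Real.exp (-(2 * (n : ℝ))) :=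
            Real.exp_le_exp.2 (by linarith)
          have h4 : (2 : ℝ) ^ N * Real.exp (-(2 * t ^ 2 / (N * c ^ 2))) ≤
              2 ^ N * Real.exp (-(2 * (n : ℝ))) := mul_le_mul_of_nonneg_left h3 (by positivity)
          linarith
      _ = _ := by
          rw [Finset.sum_const, Finset.card_univ, Fintype.card_finset, Fintype.card_fin,
            nsmul_eq_mul]
          push_cast
          ring
  have h2N : (0 : ℝ) < 2 ^ N := by positivity
  have hge : (1 : ℝ) ≤ 2 ^ (n + 1) * Real.exp (-(2 * (n : ℝ))) := by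
    have : (2 : ℝ) ^ N * 1 ≤ 2 ^ N * (2 ^ (n + 1) * Real.exp (-(2 * (n : ℝ)))) := by
      rw [mul_one]
      refine hfinal.trans (le_of_eq ?_)
      ring
    exact le_of_mul_le_mul_left this h2N
  have hlt : (2 : ℝ) ^ (n + 1) * Real.exp (-(2 * (n : ℝ))) < 1 := by
    rw [Real.exp_neg, ← div_eq_mul_inv, div_lt_one (Real.exp_pos _)]
    have h1 : (2 : ℝ) ^ (n + 1) ≤ 2 ^ (2 * n) := pow_le_pow_right₀ (by norm_num) (by omega)
    have h2 : Real.exp (2 * (n : ℝ)) = Real.exp 1 ^ (2 * n) := by
      rw [← Real.exp_nat_mul]; congr 1; push_cast; ring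
    rw [h2]
    refine lt_of_le_of_lt h1 ?_
    have he : (2 : ℝ) < Real.exp 1 := by
      have := Real.exp_one_gt_d9
      linarith
    exact pow_lt_pow_left₀ he (by norm_num) (by omega)
  linarith

end Pool.Agent.H.MP_e6b4fa_co
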