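import Mathlib
import Pool.Agent.H.MP_e6b4fa_co.Upper

/-!
# A finite Ramsey theorem and good maps
-/

namespace Pool.Agent.H.MP_e6b4fa_co

open Finset

theorem ramsey_seq (κ : Type) [Fintype κ] [DecidableEq κ] [Nonempty κ] (m : ℕ) :
    ∃ R : ℕ, ∀ {α : Type} [DecidableEq α] (s : Finset α) (f : α → α → κ), R ≤ #s →
      ∃ (a : Fin m → α) (g : Fin m → κ), Function.Injective a ∧ (∀ i, a i ∈ s) ∧
        ∀ i j, i < j → f (a i) (a j) = g i := by
  induction m with
  | zero =>
    refine ⟨0, fun s f _ => ⟨Fin.elim0, Fin.elim0, ?_, ?_, ?_⟩⟩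
    · intro i; exact i.elim0
    · intro i; exact i.elim0
    · intro i; exact i.elim0
  | succ m ih =>
    obtain ⟨R, hR⟩ := ih
    refine ⟨Fintype.card κ * R + 1, ?_⟩
    intro α _ s f hs
    have hne : s.Nonempty := by
      rw [← Finset.card_pos]; omega
    obtain ⟨x, hx⟩ := hne
    have hcard : Fintype.card κ * R ≤ #(s.erase x) := by
      rw [Finset.card_erase_of_mem hx]; omega
    obtain ⟨k, -, hk⟩ := Finset.exists_le_card_fiber_of_mul_le_card_of_maps_to
      (s := s.erase x) (t := (Finset.univ : Finset κ)) (f := fun y => f x y) (n := R)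
      (fun _ _ => Finset.mem_univ _) Finset.univ_nonempty (by rw [Finset.card_univ]; exact hcard)
    obtain ⟨a, g, hinj, hmem, hfg⟩ := hR _ f hk
    have hmem' : ∀ i, a i ≠ x ∧ a i ∈ s ∧ f x (a i) = k := by
      intro i
      have := hmem i
      rw [Finset.mem_filter, Finset.mem_erase] at this
      exact ⟨this.1.1, this.1.2, this.2⟩
    refine ⟨Fin.cons x a, Fin.cons k g, ?_, ?_, ?_⟩
    · rw [Fin.cons_injective_iff]
      refine ⟨?_, hinj⟩
      rintro ⟨i, hi⟩
      exact (hmem' i).1 hi
    · intro i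
      refine Fin.cases ?_ ?_ i
      · exact hx
      · intro j
        rw [Fin.cons_succ]
        exact (hmem' j).2.1
    · intro i j
      refine Fin.cases ?_ ?_ i
      · refine Fin.cases ?_ ?_ j
        · intro h; exact absurd h (lt_irrefl _)
        · intro j' _
          rw [Fin.cons_zero, Fin.cons_succ, Fin.cons_zero]
          exact (hmem' j').2.2
      · intro i'
        refine Fin.cases ?_ ?_ j
        · intro h; exact absurd h (by simp)
        · intro j' h
          rw [Fin.cons_succ, Fin.cons_succ, Fin.cons_succ]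
          exact hfg i' j' (by simpa using h)

theorem ramsey (κ : Type) [Fintype κ] [DecidableEq κ] [Nonempty κ] (k : ℕ) :
    ∃ R : ℕ, ∀ {α : Type} [DecidableEq α] (s : Finset α) (f : α → α → κ),
      (∀ x y, f x y = f y x) → R ≤ #s →
      ∃ (a : Fin k → α) (c : κ), Function.Injective a ∧ (∀ i, a i ∈ s) ∧
        ∀ i j, i ≠ j → f (a i) (a j) = c := by
  obtain ⟨R, hR⟩ := ramsey_seq κ (Fintype.card κ * k)
  refine ⟨R, ?_⟩
  intro α _ s f hsymm hs
  obtain ⟨a, g, hinj, hmem, hfg⟩ := hR s f hs
  obtain ⟨c, -, hc⟩ := Finset.exists_le_card_fiber_of_mul_le_card_of_maps_to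
    (s := (Finset.univ : Finset (Fin (Fintype.card κ * k)))) (t := (Finset.univ : Finset κ))
    (f := g) (n := k)
    (fun _ _ => Finset.mem_univ _) Finset.univ_nonempty (by simp)
  obtain ⟨T, hT, hTcard⟩ := Finset.exists_subset_card_eq hc
  let e : Fin k ≃ T := (T.equivFinOfCardEq hTcard).symm
  have hg : ∀ i, g (e i : Fin (Fintype.card κ * k)) = c := by
    intro i
    have := hT (e i).2
    exact (Finset.mem_filter.1 this).2
  refine ⟨fun i => a (e i), c, ?_, ?_, ?_⟩
  · intro i j hij
    exact e.injective (Subtype.ext (hinj hij))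
  · intro i; exact hmem _
  · intro i j hij
    have hne : (e i : Fin (Fintype.card κ * k)) ≠ e j := by
      intro h; exact hij (e.injective (Subtype.ext h))
    rcases lt_or_gt_of_ne hne with h | h
    · rw [hfg _ _ h, hg]
    · rw [hsymm, hfg _ _ h, hg]

theorem exists_good_map {β : Type} [Fintype β] [DecidableEq β] (R : ℕ) (hR : 2 ≤ R)
    (B : Finset (β × β)) (h : R ^ 2 * #B < Fintype.card β ^ 2) :
    ∃ φ : Fin R → β, ∀ i j, i ≠ j → (φ i, φ j) ∉ B := by
  by_contra hcon
  push Not at hcon
  have hpos : 0 < Fintype.card β := by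
    rcases Nat.eq_zero_or_pos (Fintype.card β) with h0 | h0
    · rw [h0] at h; simp at h
    · exact h0
  have hsub : (Finset.univ : Finset (Fin R → β)) ⊆
      ((Finset.univ : Finset (Fin R × Fin R)).filter (fun p => p.1 ≠ p.2)).biUnion fun p =>
        B.biUnion fun q => (Finset.univ : Finset (Fin R → β)).filter
          fun φ => φ p.1 = q.1 ∧ φ p.2 = q.2 := by
    intro φ _
    obtain ⟨i, j, hij, hB⟩ := hcon φ
    simp only [Finset.mem_biUnion, Finset.mem_filter, Finset.mem_univ, true_and]
    exact ⟨(i, j), hij, (φ i, φ j), hB, rfl, rfl⟩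
  have hcard : Fintype.card β ^ R ≤ R ^ 2 * (#B * Fintype.card β ^ (R - 2)) := by
    calc Fintype.card β ^ R = #(Finset.univ : Finset (Fin R → β)) := by
          rw [Finset.card_univ, Fintype.card_fun, Fintype.card_fin]
      _ ≤ _ := Finset.card_le_card hsub
      _ ≤ ∑ p ∈ (Finset.univ : Finset (Fin R × Fin R)).filter (fun p => p.1 ≠ p.2),
          #(B.biUnion fun q => (Finset.univ : Finset (Fin R → β)).filter
            fun φ => φ p.1 = q.1 ∧ φ p.2 = q.2) := Finset.card_biUnion_le
      _ ≤ ∑ _p ∈ (Finset.univ : Finset (Fin R × Fin R)).filter (fun p => p.1 ≠ p.2),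
          #B * Fintype.card β ^ (R - 2) := by
          refine Finset.sum_le_sum fun p hp => ?_
          refine Finset.card_biUnion_le.trans ?_
          rw [← smul_eq_mul, ← Finset.sum_const]
          refine Finset.sum_le_sum fun q _ => ?_
          have := card_two_prescribed (W := Fin R) (V := β) (Finset.mem_filter.1 hp).2 q.1 q.2
          rwa [Fintype.card_fin] at this
      _ ≤ R ^ 2 * (#B * Fintype.card β ^ (R - 2)) := by
          rw [Finset.sum_const, smul_eq_mul]
          refine Nat.mul_le_mul_right _ ?_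
          refine (Finset.card_le_univ _).trans ?_
          rw [Fintype.card_prod, Fintype.card_fin, sq]
  have h2 : Fintype.card β ^ R = Fintype.card β ^ 2 * Fintype.card β ^ (R - 2) := by
    rw [← pow_add]; congr 1; omega
  rw [h2, ← mul_assoc] at hcard
  have h3 : Fintype.card β ^ 2 ≤ R ^ 2 * #B :=
    Nat.le_of_mul_le_mul_right hcard (pow_pos hpos _)
  omega

end Pool.Agent.H.MP_e6b4fa_co
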