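import Mathlib

/-!
# An `L¹` Khintchine inequality and cut norms of matrices
-/

namespace Pool.Agent.H.MP_e6b4fa_co

open Finset

variable {ι : Type*} [DecidableEq ι]

/-- signed sum -/
def sgnSum (s : Finset ι) (a : ι → ℝ) (A : Finset ι) : ℝ :=
  ∑ i ∈ s, (if i ∈ A then (1 : ℝ) else -1) * a i

theorem sgnSum_insert_left {s : Finset ι} {j : ι} (hj : j ∉ s) (a : ι → ℝ) {A : Finset ι}
    (hA : A ⊆ s) : sgnSum (insert j s) a A = sgnSum s a A - a j := by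
  unfold sgnSum
  rw [Finset.sum_insert hj, if_neg (fun h => hj (hA h))]
  ring

theorem sgnSum_insert_right {s : Finset ι} {j : ι} (hj : j ∉ s) (a : ι → ℝ) {A : Finset ι} :
    sgnSum (insert j s) a (insert j A) = sgnSum s a A + a j := by
  unfold sgnSum
  rw [Finset.sum_insert hj, if_pos (Finset.mem_insert_self _ _)]
  have : ∑ i ∈ s, (if i ∈ insert j A then (1 : ℝ) else -1) * a i =
      ∑ i ∈ s, (if i ∈ A then (1 : ℝ) else -1) * a i := by
    refine Finset.sum_congr rfl fun i hi => ?_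
    have hij : i ≠ j := fun h => hj (h ▸ hi)
    simp [Finset.mem_insert, hij]
  rw [this]
  ring

theorem sum_powerset_sgn {s : Finset ι} {j : ι} (hj : j ∉ s) (a : ι → ℝ) (g : ℝ → ℝ) :
    ∑ A ∈ (insert j s).powerset, g (sgnSum (insert j s) a A) =
      ∑ A ∈ s.powerset, (g (sgnSum s a A - a j) + g (sgnSum s a A + a j)) := by
  rw [Finset.sum_powerset_insert hj, ← Finset.sum_add_distrib]
  refine Finset.sum_congr rfl fun A hA => ?_
  rw [sgnSum_insert_left hj a (Finset.mem_powerset.1 hA), sgnSum_insert_right hj a]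

theorem sum_sq (s : Finset ι) (a : ι → ℝ) :
    ∑ A ∈ s.powerset, (sgnSum s a A) ^ 2 = 2 ^ (#s) * ∑ i ∈ s, a i ^ 2 := by
  induction s using Finset.induction_on with
  | empty => simp [sgnSum]
  | insert j s hj ih =>
    rw [sum_powerset_sgn hj a (fun x => x ^ 2), Finset.sum_insert hj,
      Finset.card_insert_of_notMem hj]
    have : ∑ A ∈ s.powerset, ((sgnSum s a A - a j) ^ 2 + (sgnSum s a A + a j) ^ 2) =
        2 * ∑ A ∈ s.powerset, (sgnSum s a A) ^ 2 + 2 ^ (#s) * (2 * a j ^ 2) := by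
      have h2 : (2 : ℝ) ^ (#s) * (2 * a j ^ 2) = ∑ _A ∈ s.powerset, 2 * a j ^ 2 := by
        rw [Finset.sum_const, nsmul_eq_mul, Finset.card_powerset]
        push_cast
        ring
      rw [h2, Finset.mul_sum, ← Finset.sum_add_distrib]
      exact Finset.sum_congr rfl fun A _ => by ring
    rw [this, ih]
    ring

theorem sum_pow_four (s : Finset ι) (a : ι → ℝ) :
    ∑ A ∈ s.powerset, (sgnSum s a A) ^ 4 ≤ 2 ^ (#s) * (3 * (∑ i ∈ s, a i ^ 2) ^ 2) := by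
  induction s using Finset.induction_on with
  | empty => simp [sgnSum]
  | insert j s hj ih =>
    rw [sum_powerset_sgn hj a (fun x => x ^ 4), Finset.sum_insert hj,
      Finset.card_insert_of_notMem hj]
    have : ∑ A ∈ s.powerset, ((sgnSum s a A - a j) ^ 4 + (sgnSum s a A + a j) ^ 4) =
        2 * ∑ A ∈ s.powerset, (sgnSum s a A) ^ 4 +
          12 * a j ^ 2 * ∑ A ∈ s.powerset, (sgnSum s a A) ^ 2 + 2 ^ (#s) * (2 * a j ^ 4) := by
      have h2 : (2 : ℝ) ^ (#s) * (2 * a j ^ 4) = ∑ _A ∈ s.powerset, 2 * a j ^ 4 := by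
        rw [Finset.sum_const, nsmul_eq_mul, Finset.card_powerset]
        push_cast
        ring
      rw [h2, Finset.mul_sum, Finset.mul_sum, ← Finset.sum_add_distrib, ← Finset.sum_add_distrib]
      exact Finset.sum_congr rfl fun A _ => by ring
    rw [this, sum_sq]
    have h3 : (0 : ℝ) ≤ 2 ^ (#s) * a j ^ 4 := by positivity
    have : (2 : ℝ) ^ (#s + 1) * (3 * (a j ^ 2 + ∑ i ∈ s, a i ^ 2) ^ 2) =
        2 * (2 ^ (#s) * (3 * (∑ i ∈ s, a i ^ 2) ^ 2)) +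
          12 * a j ^ 2 * (2 ^ (#s) * ∑ i ∈ s, a i ^ 2) + 6 * (2 ^ (#s) * a j ^ 4) := by
      ring
    rw [this]
    linarith

theorem abs_ge_aux (x σ : ℝ) (hσ : 0 < σ) : x ^ 2 / σ - x ^ 4 / (6 * σ ^ 3) ≤ |x| := by
  have h1 : x ^ 2 / σ - x ^ 4 / (6 * σ ^ 3) = (6 * |x| ^ 2 * σ ^ 2 - |x| ^ 4) / (6 * σ ^ 3) := by
    have e2 : |x| ^ 2 = x ^ 2 := sq_abs x
    have e4 : |x| ^ 4 = x ^ 4 := by
      calc |x| ^ 4 = (|x| ^ 2) ^ 2 := by ring
        _ = x ^ 4 := by rw [e2]; ring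
    rw [e2, e4]
    field_simp
  rw [h1, div_le_iff₀ (by positivity)]
  have hx : 0 ≤ |x| := abs_nonneg x
  set y := |x| with hy
  -- 6 y^2 s^2 - y^4 <= 6 y s^3 ; y^3 - 6 y s^2 + 6 s^3 >= 0 for y, s >= 0
  have key : 0 ≤ y ^ 3 - 6 * y * σ ^ 2 + 6 * σ ^ 3 := by
    nlinarith [sq_nonneg (y - 3 / 2 * σ), mul_nonneg (add_nonneg hx hσ.le)
      (sq_nonneg (y - 3 / 2 * σ)), mul_nonneg hσ.le (sq_nonneg (y - 3 / 2 * σ)),
      mul_nonneg hx (sq_nonneg (y - 3 / 2 * σ)), mul_nonneg hx (mul_nonneg hσ.le hσ.le),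
      pow_pos hσ 3, mul_nonneg hx (pow_pos hσ 2).le]
  nlinarith [mul_nonneg hx key]

theorem khintchine (s : Finset ι) (a : ι → ℝ) :
    2 ^ (#s) * (Real.sqrt (∑ i ∈ s, a i ^ 2) / 2) ≤ ∑ A ∈ s.powerset, |sgnSum s a A| := by
  set Q : ℝ := ∑ i ∈ s, a i ^ 2 with hQ
  have hQ0 : 0 ≤ Q := Finset.sum_nonneg fun i _ => sq_nonneg _
  rcases hQ0.eq_or_lt with h | h
  · rw [← h, Real.sqrt_zero]
    simp only [zero_div, mul_zero]
    exact Finset.sum_nonneg fun A _ => abs_nonneg _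
  · set σ := Real.sqrt Q with hσ
    have hσ0 : 0 < σ := Real.sqrt_pos.2 h
    have hσQ : σ ^ 2 = Q := Real.sq_sqrt hQ0
    have h1 : ∑ A ∈ s.powerset, ((sgnSum s a A) ^ 2 / σ - (sgnSum s a A) ^ 4 / (6 * σ ^ 3)) ≤
        ∑ A ∈ s.powerset, |sgnSum s a A| :=
      Finset.sum_le_sum fun A _ => abs_ge_aux _ _ hσ0
    refine le_trans ?_ h1
    rw [Finset.sum_sub_distrib, ← Finset.sum_div, ← Finset.sum_div, sum_sq, ← hQ]
    have h4 := sum_pow_four s a
    rw [← hQ] at h4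
    have h5 : (∑ A ∈ s.powerset, (sgnSum s a A) ^ 4) / (6 * σ ^ 3) ≤
        2 ^ (#s) * (3 * Q ^ 2) / (6 * σ ^ 3) :=
      div_le_div_of_nonneg_right h4 (by positivity)
    have h6 : (2 : ℝ) ^ (#s) * (3 * Q ^ 2) / (6 * σ ^ 3) = 2 ^ (#s) * (σ / 2) := by
      rw [← hσQ]; field_simp; ring
    have h7 : (2 : ℝ) ^ (#s) * Q / σ = 2 ^ (#s) * σ := by
      rw [← hσQ]; field_simp
    rw [h6] at h5
    rw [h7]
    linarith

/-- `L¹` norm of a matrix is controlled by its cut norm. -/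
theorem sum_abs_le_of_cut {P Q : Finset ι} (F : ι → ι → ℝ) (B : ℝ)
    (hF : ∀ A ⊆ P, ∀ C ⊆ Q, |∑ x ∈ A, ∑ y ∈ C, F x y| ≤ B) :
    ∑ x ∈ P, ∑ y ∈ Q, |F x y| ≤ 8 * Real.sqrt (#P) * B := by
  have hB : 0 ≤ B := (abs_nonneg _).trans (hF ∅ (Finset.empty_subset _) ∅ (Finset.empty_subset _))
  -- for every sign choice
  have h1 : ∀ A ∈ P.powerset, ∑ y ∈ Q, |sgnSum P (fun x => F x y) A| ≤ 4 * B := by
    intro A hA
    rw [Finset.mem_powerset] at hA
    have hs : ∀ y, sgnSum P (fun x => F x y) A = ∑ x ∈ A, F x y - ∑ x ∈ P \ A, F x y := by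
      intro y
      unfold sgnSum
      rw [← Finset.sum_sdiff hA]
      have e1 : ∑ i ∈ P \ A, (if i ∈ A then (1 : ℝ) else -1) * F i y = - ∑ x ∈ P \ A, F x y := by
        rw [← Finset.sum_neg_distrib]
        refine Finset.sum_congr rfl fun i hi => ?_
        rw [if_neg (Finset.mem_sdiff.1 hi).2]; ring
      have e2 : ∑ i ∈ A, (if i ∈ A then (1 : ℝ) else -1) * F i y = ∑ x ∈ A, F x y := by
        refine Finset.sum_congr rfl fun i hi => ?_
        rw [if_pos hi]; ring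
      rw [e1, e2]; ring
    have hpos : ∀ C ⊆ Q, |∑ y ∈ C, sgnSum P (fun x => F x y) A| ≤ 2 * B := by
      intro C hC
      simp only [hs, Finset.sum_sub_distrib]
      rw [Finset.sum_comm, Finset.sum_comm (s := C) (t := P \ A)]
      refine (abs_sub _ _).trans ?_
      have := hF A hA C hC
      have := hF (P \ A) Finset.sdiff_subset C hC
      linarith
    have hsplit : ∑ y ∈ Q, |sgnSum P (fun x => F x y) A| =
        ∑ y ∈ Q.filter (fun y => 0 ≤ sgnSum P (fun x => F x y) A), sgnSum P (fun x => F x y) A +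
        - ∑ y ∈ Q.filter (fun y => ¬ 0 ≤ sgnSum P (fun x => F x y) A),
          sgnSum P (fun x => F x y) A := by
      rw [← Finset.sum_filter_add_sum_filter_not Q (fun y => 0 ≤ sgnSum P (fun x => F x y) A)]
      congr 1
      · refine Finset.sum_congr rfl fun y hy => abs_of_nonneg (Finset.mem_filter.1 hy).2
      · rw [← Finset.sum_neg_distrib]
        refine Finset.sum_congr rfl fun y hy => abs_of_neg (not_le.1 (Finset.mem_filter.1 hy).2)
    rw [hsplit]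
    have h2 := hpos _ (Finset.filter_subset (fun y => 0 ≤ sgnSum P (fun x => F x y) A) Q)
    have h3 := hpos _ (Finset.filter_subset (fun y => ¬ 0 ≤ sgnSum P (fun x => F x y) A) Q)
    rw [abs_le] at h2 h3
    linarith [h2.2, h3.1]
  -- sum over sign choices
  have h2 : ∑ y ∈ Q, ∑ A ∈ P.powerset, |sgnSum P (fun x => F x y) A| ≤ 2 ^ (#P) * (4 * B) := by
    rw [Finset.sum_comm]
    calc ∑ A ∈ P.powerset, ∑ y ∈ Q, |sgnSum P (fun x => F x y) A|
        ≤ ∑ _A ∈ P.powerset, 4 * B := Finset.sum_le_sum h1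
      _ = 2 ^ (#P) * (4 * B) := by
        rw [Finset.sum_const, Finset.card_powerset, nsmul_eq_mul]; push_cast; ring
  have h3 : ∀ y ∈ Q, 2 ^ (#P) * (Real.sqrt (∑ x ∈ P, F x y ^ 2) / 2) ≤
      ∑ A ∈ P.powerset, |sgnSum P (fun x => F x y) A| := fun y _ => khintchine P _
  have h4 : ∀ y ∈ Q, ∑ x ∈ P, |F x y| ≤ Real.sqrt (#P) * Real.sqrt (∑ x ∈ P, F x y ^ 2) := by
    intro y _
    rw [← Real.sqrt_mul (by positivity)]
    apply Real.le_sqrt_of_sq_le
    have := sq_sum_le_card_mul_sum_sq (s := P) (f := fun x => |F x y|)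
    simpa [sq_abs] using this
  have h5 : ∑ y ∈ Q, Real.sqrt (∑ x ∈ P, F x y ^ 2) ≤ 8 * B := by
    have h6 : 2 ^ (#P) * (∑ y ∈ Q, Real.sqrt (∑ x ∈ P, F x y ^ 2) / 2) ≤ 2 ^ (#P) * (4 * B) := by
      rw [Finset.mul_sum]
      exact (Finset.sum_le_sum h3).trans h2
    have h7 := le_of_mul_le_mul_left h6 (by positivity)
    rw [← Finset.sum_div] at h7
    linarith
  calc ∑ x ∈ P, ∑ y ∈ Q, |F x y| = ∑ y ∈ Q, ∑ x ∈ P, |F x y| := Finset.sum_comm
    _ ≤ ∑ y ∈ Q, Real.sqrt (#P) * Real.sqrt (∑ x ∈ P, F x y ^ 2) := Finset.sum_le_sum h4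
    _ = Real.sqrt (#P) * ∑ y ∈ Q, Real.sqrt (∑ x ∈ P, F x y ^ 2) := by rw [Finset.mul_sum]
    _ ≤ Real.sqrt (#P) * (8 * B) := mul_le_mul_of_nonneg_left h5 (Real.sqrt_nonneg _)
    _ = 8 * Real.sqrt (#P) * B := by ring

end Pool.Agent.H.MP_e6b4fa_co
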