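import Mathlib
import Pool.Agent.H.MP_e6b4fa_co.Basic

/-!
# Polarization
-/

namespace Pool.Agent.H.MP_e6b4fa_co

open Finset SimpleGraph

variable {V W : Type*}

open Classical in
theorem polar_inner [Fintype W] [DecidableEq W] [DecidableEq V] (S : W → Finset V)
    (hS : ∀ a b, a ≠ b → Disjoint (S a) (S b)) (φ : W → V) :
    ∑ I : Finset W, (-1 : ℝ) ^ (#Iᶜ) * (if ∀ a, φ a ∈ I.biUnion S then 1 else 0) =
      if ∃ σ : Equiv.Perm W, ∀ a, φ a ∈ S (σ a) then 1 else 0 := by
  have huniq : ∀ (x : V) (a b : W), x ∈ S a → x ∈ S b → a = b := by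
    intro x a b ha hb
    by_contra hab
    exact Finset.disjoint_left.1 (hS a b hab) ha hb
  by_cases hσ : ∃ σ : Equiv.Perm W, ∀ a, φ a ∈ S (σ a)
  · rw [if_pos hσ]
    obtain ⟨σ, hσ⟩ := hσ
    rw [Finset.sum_eq_single (Finset.univ : Finset W)]
    · rw [if_pos]
      · simp
      · intro a
        rw [Finset.mem_biUnion]
        exact ⟨σ a, Finset.mem_univ _, hσ a⟩
    · intro I _ hI
      rw [if_neg, mul_zero]
      intro h
      apply hI
      rw [Finset.eq_univ_iff_forall]
      intro w
      have h1 := h (σ.symm w)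
      rw [Finset.mem_biUnion] at h1
      obtain ⟨w', hw', hmem⟩ := h1
      have h2 := hσ (σ.symm w)
      rw [Equiv.apply_symm_apply] at h2
      rw [huniq _ _ _ h2 hmem]
      exact hw'
    · intro h
      exact absurd (Finset.mem_univ _) h
  · rw [if_neg hσ]
    by_cases hcov : ∀ a, ∃ w, φ a ∈ S w
    · choose τ hτ using hcov
      have hnsurj : ¬ Function.Surjective τ := by
        intro hsurj
        have hbij : Function.Bijective τ := hsurj.bijective_of_finite
        exact hσ ⟨Equiv.ofBijective τ hbij, fun a => hτ a⟩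
      rw [Function.Surjective] at hnsurj
      push Not at hnsurj
      obtain ⟨w₀, hw₀⟩ := hnsurj
      have hcond : ∀ I : Finset W, (∀ a, φ a ∈ I.biUnion S) ↔ ∀ a, τ a ∈ I := by
        intro I
        refine forall_congr' fun a => ?_
        rw [Finset.mem_biUnion]
        constructor
        · rintro ⟨w, hw, hmem⟩
          rw [huniq _ _ _ (hτ a) hmem]
          exact hw
        · intro h
          exact ⟨τ a, h, hτ a⟩
      refine Finset.sum_involution (fun I _ => if w₀ ∈ I then I.erase w₀ else insert w₀ I)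
        ?_ ?_ ?_ ?_
      · intro I _
        simp only [hcond]
        by_cases hI : w₀ ∈ I
        · simp only [hI, if_true]
          have h1 : (∀ a, τ a ∈ I.erase w₀) ↔ ∀ a, τ a ∈ I := by
            refine forall_congr' fun a => ?_
            rw [Finset.mem_erase]
            exact ⟨fun h => h.2, fun h => ⟨hw₀ a, h⟩⟩
          have h2 : #(I.erase w₀)ᶜ = #Iᶜ + 1 := by
            rw [Finset.compl_erase, Finset.card_insert_of_notMem]
            simp [hI]
          rw [h2, pow_succ]
          simp only [h1]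
          ring
        · simp only [hI, if_false]
          have h1 : (∀ a, τ a ∈ insert w₀ I) ↔ ∀ a, τ a ∈ I := by
            refine forall_congr' fun a => ?_
            rw [Finset.mem_insert]
            exact ⟨fun h => h.resolve_left (hw₀ a), fun h => Or.inr h⟩
          have h2 : #Iᶜ = #(insert w₀ I)ᶜ + 1 := by
            rw [Finset.compl_insert, Finset.card_erase_add_one]
            simp [hI]
          rw [h2, pow_succ]
          simp only [h1]
          ring
      · intro I _ _
        by_cases hI : w₀ ∈ I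
        · simp only [hI, if_true]
          intro h
          have : w₀ ∈ I.erase w₀ := by rw [h]; exact hI
          simp at this
        · simp only [hI, if_false]
          intro h
          apply hI
          rw [← h]
          exact Finset.mem_insert_self _ _
      · intro I _
        exact Finset.mem_univ _
      · intro I _
        by_cases hI : w₀ ∈ I
        · simp [hI]
        · simp [hI]
    · push Not at hcov
      obtain ⟨a, ha⟩ := hcov
      refine Finset.sum_eq_zero fun I _ => ?_
      rw [if_neg, mul_zero]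
      intro h
      have := h a
      rw [Finset.mem_biUnion] at this
      obtain ⟨w, _, hw⟩ := this
      exact ha w hw

open Classical in
theorem polar [Fintype W] [DecidableEq W] [Fintype V] [DecidableEq V] (κ : (W → V) → ℝ) (S : W → Finset V)
    (hS : ∀ a b, a ≠ b → Disjoint (S a) (S b)) :
    ∑ v ∈ Fintype.piFinset S, ∑ σ : Equiv.Perm W, κ (v ∘ σ) =
      ∑ I : Finset W, (-1 : ℝ) ^ (#Iᶜ) * ∑ φ ∈ injInto W (I.biUnion S), κ φ := by
  have huniq : ∀ (x : V) (a b : W), x ∈ S a → x ∈ S b → a = b := by
    intro x a b ha hb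
    by_contra hab
    exact Finset.disjoint_left.1 (hS a b hab) ha hb
  have hR : ∑ I : Finset W, (-1 : ℝ) ^ (#Iᶜ) * ∑ φ ∈ injInto W (I.biUnion S), κ φ =
      ∑ φ : W → V, (if ∃ σ : Equiv.Perm W, ∀ a, φ a ∈ S (σ a) then κ φ else 0) := by
    have h1 : ∀ I : Finset W, (-1 : ℝ) ^ (#Iᶜ) * ∑ φ ∈ injInto W (I.biUnion S), κ φ =
        ∑ φ : W → V, (if Function.Injective φ then κ φ else 0) *
          ((-1 : ℝ) ^ (#Iᶜ) * (if ∀ a, φ a ∈ I.biUnion S then 1 else 0)) := by
      intro I
      have hI : injInto W (I.biUnion S) = (Finset.univ : Finset (W → V)).filter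
          (fun φ => Function.Injective φ ∧ ∀ a, φ a ∈ I.biUnion S) := by
        ext φ
        rw [mem_injInto]
        simp only [Finset.mem_filter, Finset.mem_univ, true_and]
      rw [hI, Finset.sum_filter, Finset.mul_sum]
      refine Finset.sum_congr rfl fun φ _ => ?_
      by_cases h1 : Function.Injective φ
      · by_cases h2 : ∀ a, φ a ∈ I.biUnion S
        · rw [if_pos ⟨h1, h2⟩, if_pos h1, if_pos h2]; ring
        · rw [if_neg (fun h => h2 h.2), if_neg h2]; ring
      · rw [if_neg (fun h => h1 h.1), if_neg h1]; ring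
    rw [Finset.sum_congr rfl fun I _ => h1 I, Finset.sum_comm]
    refine Finset.sum_congr rfl fun φ _ => ?_
    rw [← Finset.mul_sum, polar_inner S hS φ]
    by_cases hσ : ∃ σ : Equiv.Perm W, ∀ a, φ a ∈ S (σ a)
    · have hinj : Function.Injective φ := by
        obtain ⟨σ, hσ⟩ := hσ
        intro a b hab
        have h1 := hσ a
        rw [hab] at h1
        exact σ.injective (huniq _ _ _ h1 (hσ b))
      rw [if_pos hσ, if_pos hσ, if_pos hinj, mul_one]
    · rw [if_neg hσ, if_neg hσ, mul_zero]
  rw [hR, ← Finset.sum_filter, ← Finset.sum_product']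
  refine Finset.sum_bij (fun p _ => p.1 ∘ p.2) ?_ ?_ ?_ ?_
  · rintro ⟨v, σ⟩ hp
    simp only [Finset.mem_product, Fintype.mem_piFinset, Finset.mem_univ, and_true] at hp
    simp only [Finset.mem_filter, Finset.mem_univ, true_and]
    exact ⟨σ, fun a => hp (σ a)⟩
  · rintro ⟨v, σ⟩ hp ⟨v', σ'⟩ hp' h
    simp only [Finset.mem_product, Fintype.mem_piFinset, Finset.mem_univ, and_true] at hp hp'
    simp only at h
    have hσσ' : σ = σ' := by
      ext a
      have h1 : v (σ a) = v' (σ' a) := congrFun h a
      have h2 := hp (σ a)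
      rw [h1] at h2
      exact huniq _ _ _ h2 (hp' (σ' a))
    subst hσσ'
    have hvv' : v = v' := by
      funext w
      have h1 := congrFun h (σ.symm w)
      simpa using h1
    rw [hvv']
  · intro φ hφ
    simp only [Finset.mem_filter, Finset.mem_univ, true_and] at hφ
    obtain ⟨σ, hσ⟩ := hφ
    refine ⟨(φ ∘ σ.symm, σ), ?_, ?_⟩
    · simp only [Finset.mem_product, Fintype.mem_piFinset, Finset.mem_univ, and_true]
      intro w
      have := hσ (σ.symm w)
      rw [Equiv.apply_symm_apply] at this
      exact this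
    · funext a
      simp
  · rintro ⟨v, σ⟩ _
    rfl

/-- the symmetrised kernel -/
noncomputable def Dt [Fintype W] [DecidableEq W] (H : SimpleGraph W) (G : SimpleGraph V)
    (v : W → V) : ℝ :=
  ∑ σ : Equiv.Perm W, (hom01 H G (v ∘ σ) - hom01 H Gᶜ (v ∘ σ))

theorem abs_sum_Dt_le [Fintype W] [DecidableEq W] [Fintype V] (H : SimpleGraph W)
    (G : SimpleGraph V) (M : ℝ) (hM : ∀ X : Finset V, |D H G X| ≤ M)
    (S : W → Finset V) (hS : ∀ a b, a ≠ b → Disjoint (S a) (S b)) :
    |∑ v ∈ Fintype.piFinset S, Dt H G v| ≤ 2 ^ (Fintype.card W) * M := by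
  classical
  have h := polar (fun φ => hom01 H G φ - hom01 H Gᶜ φ) S hS
  have h1 : ∑ v ∈ Fintype.piFinset S, Dt H G v =
      ∑ I : Finset W, (-1 : ℝ) ^ (#Iᶜ) * D H G (I.biUnion S) := by
    unfold Dt D
    convert h using 2
  rw [h1]
  calc |∑ I : Finset W, (-1 : ℝ) ^ (#Iᶜ) * D H G (I.biUnion S)|
      ≤ ∑ I : Finset W, |(-1 : ℝ) ^ (#Iᶜ) * D H G (I.biUnion S)| :=
        Finset.abs_sum_le_sum_abs _ _
    _ ≤ ∑ _I : Finset W, M := by
        refine Finset.sum_le_sum fun I _ => ?_
        rw [abs_mul, abs_pow, abs_neg, abs_one, one_pow, one_mul]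
        exact hM _
    _ = 2 ^ (Fintype.card W) * M := by
        rw [Finset.sum_const, Finset.card_univ, Fintype.card_finset, nsmul_eq_mul]
        push_cast
        ring

end Pool.Agent.H.MP_e6b4fa_co
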