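import Mathlib
import Pool.Agent.H.MP_e6b4fa_co.Polar
import Pool.Agent.H.MP_e6b4fa_co.Upper
import Pool.Agent.H.MP_e6b4fa_co.Khin

/-!
# Counting in regular systems
-/

namespace Pool.Agent.H.MP_e6b4fa_co

open Finset SimpleGraph

variable {V W : Type*}

open Classical in
/-- real adjacency indicator -/
noncomputable def adj01 (G : SimpleGraph V) (x y : V) : ℝ := if G.Adj x y then 1 else 0

theorem adj01_nonneg (G : SimpleGraph V) (x y : V) : 0 ≤ adj01 G x y := by
  unfold adj01; split_ifs <;> norm_num

theorem adj01_le_one (G : SimpleGraph V) (x y : V) : adj01 G x y ≤ 1 := by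
  unfold adj01; split_ifs <;> norm_num

theorem adj01_compl (G : SimpleGraph V) {x y : V} (h : x ≠ y) :
    adj01 Gᶜ x y = 1 - adj01 G x y := by
  unfold adj01
  by_cases h1 : G.Adj x y
  · rw [if_pos h1, if_neg (fun h2 => ((compl_adj G x y).1 h2).2 h1)]; ring
  · rw [if_neg h1, if_pos ((compl_adj G x y).2 ⟨h, h1⟩)]; ring

section pi

variable [Fintype W] [DecidableEq W] [DecidableEq V]

theorem sum_pi_fiber (S : W → Finset V) (a : W) (A : Finset V) (f : (W → V) → ℝ) :
    ∑ v ∈ Fintype.piFinset (Function.update S a A), f v =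
      ∑ x ∈ A, ∑ v ∈ Fintype.piFinset (Function.update S a {x}), f v := by
  rw [← Finset.sum_fiberwise_of_maps_to (s := Fintype.piFinset (Function.update S a A)) (t := A)
    (g := fun v => v a)]
  · refine Finset.sum_congr rfl fun x hx => ?_
    refine Finset.sum_congr ?_ fun _ _ => rfl
    ext v
    simp only [Finset.mem_filter, Fintype.mem_piFinset]
    constructor
    · rintro ⟨h1, h2⟩ w
      by_cases hw : w = a
      · subst hw; simp [h2]
      · have := h1 w
        rw [Function.update_of_ne hw] at this ⊢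
        exact this
    · intro h
      have ha := h a
      rw [Function.update_self, Finset.mem_singleton] at ha
      refine ⟨fun w => ?_, ha⟩
      by_cases hw : w = a
      · subst hw; rw [Function.update_self, ha]; exact hx
      · have := h w
        rw [Function.update_of_ne hw] at this ⊢
        exact this
  · intro v hv
    have := (Fintype.mem_piFinset.1 hv) a
    rwa [Function.update_self] at this

theorem sum_pi_fiber₂ (S : W → Finset V) {a b : W} (hab : a ≠ b) (A B : Finset V)
    (f : (W → V) → ℝ) :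
    ∑ v ∈ Fintype.piFinset (Function.update (Function.update S a A) b B), f v =
      ∑ x ∈ A, ∑ y ∈ B,
        ∑ v ∈ Fintype.piFinset (Function.update (Function.update S a {x}) b {y}), f v := by
  rw [sum_pi_fiber, Finset.sum_comm]
  refine Finset.sum_congr rfl fun y _ => ?_
  rw [Function.update_comm hab, sum_pi_fiber]
  refine Finset.sum_congr rfl fun x _ => ?_
  rw [Function.update_comm hab.symm]

theorem sum_resample (S : W → Finset V) (a : W) (f : (W → V) → ℝ) :
    ∑ v ∈ Fintype.piFinset S, ∑ x ∈ S a, f (Function.update v a x) =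
      #(S a) * ∑ v ∈ Fintype.piFinset S, f v := by
  have h1 : (#(S a) : ℝ) * ∑ v ∈ Fintype.piFinset S, f v =
      ∑ v ∈ Fintype.piFinset S, ∑ _x ∈ S a, f v := by
    rw [Finset.mul_sum]
    refine Finset.sum_congr rfl fun v _ => ?_
    rw [Finset.sum_const, nsmul_eq_mul]
  rw [h1, ← Finset.sum_product', ← Finset.sum_product']
  refine Finset.sum_nbij' (fun p => (Function.update p.1 a p.2, p.1 a))
    (fun p => (Function.update p.1 a p.2, p.1 a)) ?_ ?_ ?_ ?_ ?_
  · rintro ⟨v, x⟩ hp
    simp only [Finset.mem_product, Fintype.mem_piFinset] at hp ⊢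
    refine ⟨fun w => ?_, hp.1 a⟩
    by_cases hw : w = a
    · subst hw; rw [Function.update_self]; exact hp.2
    · rw [Function.update_of_ne hw]; exact hp.1 w
  · rintro ⟨v, x⟩ hp
    simp only [Finset.mem_product, Fintype.mem_piFinset] at hp ⊢
    refine ⟨fun w => ?_, hp.1 a⟩
    by_cases hw : w = a
    · subst hw; rw [Function.update_self]; exact hp.2
    · rw [Function.update_of_ne hw]; exact hp.1 w
  · rintro ⟨v, x⟩ _
    simp
  · rintro ⟨v, x⟩ _
    simp
  · rintro ⟨v, x⟩ _
    rfl

/-- cut regularity of a family of sets with prescribed densities -/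
def CutReg (G : SimpleGraph V) (S : W → Finset V) (d : W → W → ℝ) (ε : ℝ) : Prop :=
  ∀ a b, a ≠ b → ∀ A ⊆ S a, ∀ B ⊆ S b,
    |∑ x ∈ A, ∑ y ∈ B, (adj01 G x y - d a b)| ≤ ε * (#(S a) * #(S b))

theorem key_bound {G : SimpleGraph V} {S : W → Finset V} {d : W → W → ℝ} {ε : ℝ}
    (hreg : CutReg G S d ε) (hε : 0 ≤ ε) {a b : W} (hab : a ≠ b) (g₁ g₂ : (W → V) → ℝ)
    (h₁ : ∀ v, g₁ v = 0 ∨ g₁ v = 1) (h₂ : ∀ v, g₂ v = 0 ∨ g₂ v = 1)
    (hg₁ : ∀ v y, g₁ (Function.update v b y) = g₁ v)
    (hg₂ : ∀ v x, g₂ (Function.update v a x) = g₂ v) :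
    |∑ v ∈ Fintype.piFinset S, (adj01 G (v a) (v b) - d a b) * (g₁ v * g₂ v)| ≤
      ε * ∏ w, (#(S w) : ℝ) := by
  classical
  set f : (W → V) → ℝ := fun v => (adj01 G (v a) (v b) - d a b) * (g₁ v * g₂ v) with hf
  by_cases hne : (S a).Nonempty ∧ (S b).Nonempty
  · have ha : (0 : ℝ) < #(S a) := by exact_mod_cast hne.1.card_pos
    have hb : (0 : ℝ) < #(S b) := by exact_mod_cast hne.2.card_pos
    have hres : (#(S a) * #(S b) : ℝ) * ∑ v ∈ Fintype.piFinset S, f v =
        ∑ v ∈ Fintype.piFinset S, ∑ x ∈ S a, ∑ y ∈ S b,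
          f (Function.update (Function.update v a x) b y) := by
      rw [sum_resample S a (fun u => ∑ y ∈ S b, f (Function.update u b y)), sum_resample S b f]
      ring
    have hinner : ∀ v ∈ Fintype.piFinset S, |∑ x ∈ S a, ∑ y ∈ S b,
          f (Function.update (Function.update v a x) b y)| ≤ ε * (#(S a) * #(S b)) := by
      intro v _
      have e : ∀ x y, f (Function.update (Function.update v a x) b y) =
          (adj01 G x y - d a b) * ((if g₁ (Function.update v a x) = 1 then 1 else 0) *
            (if g₂ (Function.update v b y) = 1 then 1 else 0)) := by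
        intro x y
        rw [hf]
        simp only
        have e1 : g₁ (Function.update (Function.update v a x) b y) =
            (if g₁ (Function.update v a x) = 1 then (1 : ℝ) else 0) := by
          rw [hg₁]
          rcases h₁ (Function.update v a x) with h | h <;> simp [h]
        have e2 : g₂ (Function.update (Function.update v a x) b y) =
            (if g₂ (Function.update v b y) = 1 then (1 : ℝ) else 0) := by
          rw [Function.update_comm hab, hg₂]
          rcases h₂ (Function.update v b y) with h | h <;> simp [h]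
        rw [e1, e2]
        simp [Function.update_of_ne hab]
      have e3 : ∑ x ∈ S a, ∑ y ∈ S b, f (Function.update (Function.update v a x) b y) =
          ∑ x ∈ (S a).filter (fun x => g₁ (Function.update v a x) = 1),
            ∑ y ∈ (S b).filter (fun y => g₂ (Function.update v b y) = 1),
              (adj01 G x y - d a b) := by
        rw [Finset.sum_filter]
        refine Finset.sum_congr rfl fun x _ => ?_
        by_cases hx : g₁ (Function.update v a x) = 1
        · rw [if_pos hx, Finset.sum_filter]
          refine Finset.sum_congr rfl fun y _ => ?_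
          rw [e, if_pos hx]
          by_cases hy : g₂ (Function.update v b y) = 1
          · simp [hy]
          · simp [hy]
        · rw [if_neg hx]
          refine Finset.sum_eq_zero fun y _ => ?_
          rw [e, if_neg hx]; ring
      rw [e3]
      exact hreg a b hab _ (Finset.filter_subset _ _) _ (Finset.filter_subset _ _)
    have h3 : |(#(S a) * #(S b) : ℝ) * ∑ v ∈ Fintype.piFinset S, f v| ≤
        (#(S a) * #(S b) : ℝ) * (ε * ∏ w, (#(S w) : ℝ)) := by
      rw [hres]
      calc |∑ v ∈ Fintype.piFinset S, ∑ x ∈ S a, ∑ y ∈ S b,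
            f (Function.update (Function.update v a x) b y)|
          ≤ ∑ v ∈ Fintype.piFinset S, |∑ x ∈ S a, ∑ y ∈ S b,
            f (Function.update (Function.update v a x) b y)| := Finset.abs_sum_le_sum_abs _ _
        _ ≤ ∑ _v ∈ Fintype.piFinset S, ε * (#(S a) * #(S b)) := Finset.sum_le_sum hinner
        _ = _ := by
          rw [Finset.sum_const, Fintype.card_piFinset, nsmul_eq_mul]
          push_cast
          ring
    rw [abs_mul, abs_of_pos (mul_pos ha hb)] at h3
    exact le_of_mul_le_mul_left h3 (mul_pos ha hb)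
  · have hempty : Fintype.piFinset S = ∅ := by
      rw [Finset.eq_empty_iff_forall_notMem]
      intro v hv
      rw [Fintype.mem_piFinset] at hv
      exact hne ⟨⟨v a, hv a⟩, ⟨v b, hv b⟩⟩
    rw [hempty, Finset.sum_empty, abs_zero]
    exact mul_nonneg hε (Finset.prod_nonneg fun _ _ => by positivity)

open Classical in
theorem key_hom {G : SimpleGraph V} {S : W → Finset V} {d : W → W → ℝ} {ε : ℝ}
    (hreg : CutReg G S d ε) (hε : 0 ≤ ε) {a b : W} (hab : a ≠ b) (J : SimpleGraph W)
    (hJ : ¬ J.Adj a b) (G' : SimpleGraph V) :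
    |∑ v ∈ Fintype.piFinset S, (adj01 G (v a) (v b) - d a b) * hom01 J G' v| ≤
      ε * ∏ w, (#(S w) : ℝ) := by
  have := key_bound hreg hε hab
    (fun v => if ∀ c e, c ≠ b → e ≠ b → J.Adj c e → G'.Adj (v c) (v e) then 1 else 0)
    (fun v => if ∀ c, J.Adj c b → G'.Adj (v c) (v b) then 1 else 0) ?_ ?_ ?_ ?_
  · convert this using 4 with v _
    unfold hom01
    by_cases h1 : ∀ c e, c ≠ b → e ≠ b → J.Adj c e → G'.Adj (v c) (v e)
    · by_cases h2 : ∀ c, J.Adj c b → G'.Adj (v c) (v b)
      · rw [if_pos h1, if_pos h2, if_pos, one_mul]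
        intro c e hce
        by_cases hc : c = b
        · subst hc; exact (h2 e hce.symm).symm
        · by_cases he : e = b
          · subst he; exact h2 c hce
          · exact h1 c e hc he hce
      · rw [if_neg h2, mul_zero, if_neg]
        intro h
        exact h2 fun c hc => h c b hc
    · rw [if_neg h1, zero_mul, if_neg]
      intro h
      exact h1 fun c e _ _ hce => h c e hce
  · intro v; split_ifs <;> simp
  · intro v; split_ifs <;> simp
  · intro v y
    have : (∀ c e, c ≠ b → e ≠ b → J.Adj c e →
        G'.Adj (Function.update v b y c) (Function.update v b y e)) ↔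
        (∀ c e, c ≠ b → e ≠ b → J.Adj c e → G'.Adj (v c) (v e)) := by
      refine forall_congr' fun c => forall_congr' fun e => ?_
      refine imp_congr_right fun hc => imp_congr_right fun he => ?_
      rw [Function.update_of_ne hc, Function.update_of_ne he]
    simp only [this]
  · intro v x
    have : (∀ c, J.Adj c b → G'.Adj (Function.update v a x c) (Function.update v a x b)) ↔
        (∀ c, J.Adj c b → G'.Adj (v c) (v b)) := by
      refine forall_congr' fun c => imp_congr_right fun hcb => ?_
      have hca : c ≠ a := by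
        rintro rfl; exact hJ hcb
      rw [Function.update_of_ne hca, Function.update_of_ne hab.symm]
    simp only [this]

theorem hom01_bot (G : SimpleGraph V) (v : W → V) : hom01 (⊥ : SimpleGraph W) G v = 1 := by
  unfold hom01
  rw [if_pos]
  intro a b h
  exact absurd h (by simp)

theorem hom01_delete {J : SimpleGraph W} {a b : W} (hJ : J.Adj a b) (G : SimpleGraph V)
    (v : W → V) :
    hom01 J G v = adj01 G (v a) (v b) * hom01 (J.deleteEdges {s(a, b)}) G v := by
  unfold hom01 adj01
  by_cases h1 : G.Adj (v a) (v b)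
  · rw [if_pos h1, one_mul]
    have : (∀ c e, J.Adj c e → G.Adj (v c) (v e)) ↔
        (∀ c e, (J.deleteEdges {s(a, b)}).Adj c e → G.Adj (v c) (v e)) := by
      constructor
      · intro h c e hce
        rw [deleteEdges_adj] at hce
        exact h c e hce.1
      · intro h c e hce
        by_cases hs : s(c, e) = s(a, b)
        · rw [Sym2.eq_iff] at hs
          rcases hs with ⟨rfl, rfl⟩ | ⟨rfl, rfl⟩
          · exact h1
          · exact h1.symm
        · apply h c e
          rw [deleteEdges_adj]
          exact ⟨hce, by simpa using hs⟩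
    by_cases h2 : ∀ c e, J.Adj c e → G.Adj (v c) (v e)
    · rw [if_pos h2, if_pos (this.1 h2)]
    · rw [if_neg h2, if_neg (fun h3 => h2 (this.2 h3))]
  · rw [if_neg h1, zero_mul, if_neg]
    intro h
    exact h1 (h a b hJ)

theorem sum_hom01_lower {G : SimpleGraph V} {S : W → Finset V} {d : W → W → ℝ} {ε η : ℝ}
    (hreg : CutReg G S d ε) (hε : 0 ≤ ε) (hη0 : 0 ≤ η) (hη1 : η ≤ 1)
    (hd : ∀ a b, a ≠ b → η ≤ d a b) :
    ∀ (m : ℕ) (J : SimpleGraph W), J.edgeSet.ncard = m →
      (η ^ m - m * ε) * ∏ w, (#(S w) : ℝ) ≤ ∑ v ∈ Fintype.piFinset S, hom01 J G v := by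
  have hP : (0 : ℝ) ≤ ∏ w, (#(S w) : ℝ) := Finset.prod_nonneg fun _ _ => by positivity
  intro m
  induction m with
  | zero =>
    intro J hJ
    have hJ' : J = ⊥ := by
      rw [Set.ncard_eq_zero (Set.toFinite _)] at hJ
      exact edgeSet_eq_empty.1 hJ
    subst hJ'
    simp only [hom01_bot]
    rw [Finset.sum_const, Fintype.card_piFinset, nsmul_eq_mul]
    push_cast
    simp
  | succ m ih =>
    intro J hJ
    have hne : J.edgeSet.Nonempty := by
      rw [← Set.ncard_pos (Set.toFinite _), hJ]; omega
    obtain ⟨e, he⟩ := hne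
    induction e using Sym2.ind with
    | _ a b =>
    have hadj : J.Adj a b := he
    have hab : a ≠ b := hadj.ne
    have hcard : (J.deleteEdges {s(a, b)}).edgeSet.ncard = m := by
      rw [edgeSet_deleteEdges, Set.ncard_sdiff_singleton_of_mem he, hJ]
      omega
    have h1 := ih _ hcard
    have h2 := key_hom hreg hε hab (J.deleteEdges {s(a, b)}) (by
      rw [deleteEdges_adj]; simp) G
    set X := ∑ v ∈ Fintype.piFinset S, hom01 (J.deleteEdges {s(a, b)}) G v with hX
    set P := ∏ w, (#(S w) : ℝ) with hPdef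
    have h3 : ∑ v ∈ Fintype.piFinset S, hom01 J G v =
        ∑ v ∈ Fintype.piFinset S, (adj01 G (v a) (v b) - d a b) *
          hom01 (J.deleteEdges {s(a, b)}) G v + d a b * X := by
      rw [hX, Finset.mul_sum, ← Finset.sum_add_distrib]
      refine Finset.sum_congr rfl fun v _ => ?_
      rw [hom01_delete hadj]; ring
    rw [h3]
    have hX0 : 0 ≤ X := Finset.sum_nonneg fun v _ => hom01_nonneg _ _ _
    have h4 : η * X ≤ d a b * X := mul_le_mul_of_nonneg_right (hd a b hab) hX0
    have h5 : η * ((η ^ m - m * ε) * P) ≤ η * X := mul_le_mul_of_nonneg_left h1 hη0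
    have h6 : η * (m * ε * P) ≤ 1 * (m * ε * P) :=
      mul_le_mul_of_nonneg_right hη1 (mul_nonneg (mul_nonneg (Nat.cast_nonneg m) hε) hP)
    have h7 := (abs_le.1 h2).1
    push_cast
    have h8 : (η ^ (m + 1) - (m + 1) * ε) * P = η * (η ^ m * P) - m * ε * P - ε * P := by ring
    rw [h8]
    nlinarith [h4, h5, h6, h7]

end pi

end Pool.Agent.H.MP_e6b4fa_co
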