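import Mathlib
import Pool.Agent.H.MP_e6b4fa_co.Count

/-!
# The three structural cases
-/

namespace Pool.Agent.H.MP_e6b4fa_co

open Finset SimpleGraph

variable {V W : Type*} [Fintype W] [DecidableEq W] [DecidableEq V]

omit [Fintype W] [DecidableEq W] [DecidableEq V] in
theorem ne_of_disj {S : W → Finset V} (hS : ∀ a b, a ≠ b → Disjoint (S a) (S b)) {a b : W}
    (hab : a ≠ b) {x y : V} (hx : x ∈ S a) (hy : y ∈ S b) : x ≠ y := by
  rintro rfl
  exact Finset.disjoint_left.1 (hS a b hab) hx hy

omit [Fintype W] [DecidableEq W] in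
theorem CutReg.compl {G : SimpleGraph V} {S : W → Finset V} {d : W → W → ℝ} {ε : ℝ}
    (hreg : CutReg G S d ε) (hS : ∀ a b, a ≠ b → Disjoint (S a) (S b)) :
    CutReg Gᶜ S (fun a b => 1 - d a b) ε := by
  intro a b hab A hA B hB
  have h := hreg a b hab A hA B hB
  have e : ∑ x ∈ A, ∑ y ∈ B, (adj01 Gᶜ x y - (1 - d a b)) =
      - ∑ x ∈ A, ∑ y ∈ B, (adj01 G x y - d a b) := by
    rw [← Finset.sum_neg_distrib]
    refine Finset.sum_congr rfl fun x hx => ?_
    rw [← Finset.sum_neg_distrib]
    refine Finset.sum_congr rfl fun y hy => ?_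
    rw [adj01_compl G (ne_of_disj hS hab (hA hx) (hB hy))]
    ring
  rw [e, abs_neg]
  exact h

omit [DecidableEq V] in
theorem Dt_compl (H : SimpleGraph W) (G : SimpleGraph V) (v : W → V) :
    Dt H Gᶜ v = - Dt H G v := by
  unfold Dt
  rw [← Finset.sum_neg_distrib, compl_compl]
  exact Finset.sum_congr rfl fun σ _ => by ring

omit [DecidableEq V] in
theorem abs_Dt_le (H : SimpleGraph W) (G : SimpleGraph V) (v : W → V) :
    |Dt H G v| ≤ (Fintype.card W).factorial := by
  unfold Dt
  calc |∑ σ : Equiv.Perm W, (hom01 H G (v ∘ σ) - hom01 H Gᶜ (v ∘ σ))|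
      ≤ ∑ σ : Equiv.Perm W, |hom01 H G (v ∘ σ) - hom01 H Gᶜ (v ∘ σ)| :=
        Finset.abs_sum_le_sum_abs _ _
    _ ≤ ∑ _σ : Equiv.Perm W, (1 : ℝ) := by
        refine Finset.sum_le_sum fun σ _ => ?_
        rw [abs_le]
        constructor <;> linarith [hom01_nonneg H G (v ∘ σ), hom01_le_one H G (v ∘ σ),
          hom01_nonneg H Gᶜ (v ∘ σ), hom01_le_one H Gᶜ (v ∘ σ)]
    _ = _ := by
        rw [Finset.sum_const, Finset.card_univ, Fintype.card_perm, nsmul_eq_mul, mul_one]

/-- all pairs sparse -/
theorem low_case {H : SimpleGraph W} (hH : H ≠ ⊥) {G : SimpleGraph V} {S : W → Finset V}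
    {d : W → W → ℝ} {ε η : ℝ} (hS : ∀ a b, a ≠ b → Disjoint (S a) (S b))
    (hreg : CutReg G S d ε) (hε : 0 ≤ ε) (hd : ∀ a b, a ≠ b → d a b ≤ η) (hη : 0 ≤ η) :
    ∑ v ∈ Fintype.piFinset S, Dt H G v ≤
      ((Fintype.card W).factorial : ℝ) *
        (-1 + 2 * (Fintype.card W) ^ 2 * (η + ε)) * ∏ w, (#(S w) : ℝ) := by
  set K : ℝ := ((Fintype.card W).factorial : ℝ) with hK
  set P := ∏ w, (#(S w) : ℝ) with hPdef
  have hP : (0 : ℝ) ≤ P := Finset.prod_nonneg fun _ _ => by positivity
  have hK0 : 0 ≤ K := by positivity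
  have hpt : ∀ v ∈ Fintype.piFinset S, Dt H G v ≤
      -K + 2 * K * ∑ p ∈ (Finset.univ : Finset (W × W)).filter (fun p => p.1 ≠ p.2),
        adj01 G (v p.1) (v p.2) := by
    intro v hv
    by_cases hex : ∃ p : W × W, p.1 ≠ p.2 ∧ G.Adj (v p.1) (v p.2)
    · obtain ⟨p, hp, hadj⟩ := hex
      have hp' : p ∈ (Finset.univ : Finset (W × W)).filter (fun p => p.1 ≠ p.2) := by simp [hp]
      have h1 : (1 : ℝ) ≤ ∑ p ∈ (Finset.univ : Finset (W × W)).filter (fun p => p.1 ≠ p.2),
          adj01 G (v p.1) (v p.2) := by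
        calc (1 : ℝ) = adj01 G (v p.1) (v p.2) := by unfold adj01; rw [if_pos hadj]
          _ ≤ _ := Finset.single_le_sum (f := fun p : W × W => adj01 G (v p.1) (v p.2))
            (fun i _ => adj01_nonneg _ _ _) hp'
      have h2 := (abs_le.1 (abs_Dt_le H G v)).2
      nlinarith
    · push Not at hex
      have h1 : Dt H G v = -K := by
        unfold Dt
        have : ∀ σ : Equiv.Perm W, hom01 H G (v ∘ σ) - hom01 H Gᶜ (v ∘ σ) = -1 := by
          intro σ
          have e1 : hom01 H G (v ∘ σ) = 0 := by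
            unfold hom01
            rw [if_neg]
            intro h
            obtain ⟨a, b, hab⟩ := ne_bot_iff_exists_adj.1 hH
            exact hex (σ a, σ b) (fun h' => hab.ne (σ.injective h')) (h a b hab)
          have e2 : hom01 H Gᶜ (v ∘ σ) = 1 := by
            unfold hom01
            rw [if_pos]
            intro a b hab
            rw [compl_adj]
            have hσ : σ a ≠ σ b := fun h' => hab.ne (σ.injective h')
            refine ⟨?_, hex (σ a, σ b) hσ⟩
            rw [Fintype.mem_piFinset] at hv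
            exact ne_of_disj hS hσ (hv _) (hv _)
          rw [e1, e2]; ring
        simp only [this]
        rw [Finset.sum_const, Finset.card_univ, Fintype.card_perm, nsmul_eq_mul, hK]
        ring
      rw [h1]
      have h2 : 0 ≤ ∑ p ∈ (Finset.univ : Finset (W × W)).filter (fun p => p.1 ≠ p.2),
          adj01 G (v p.1) (v p.2) := Finset.sum_nonneg fun _ _ => adj01_nonneg _ _ _
      nlinarith
  have hadjsum : ∀ p : W × W, p.1 ≠ p.2 →
      ∑ v ∈ Fintype.piFinset S, adj01 G (v p.1) (v p.2) ≤ (η + ε) * P := by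
    intro p hp
    have h1 := key_hom hreg hε hp (⊥ : SimpleGraph W) (by simp) G
    simp only [hom01_bot, mul_one] at h1
    rw [Finset.sum_sub_distrib, Finset.sum_const, Fintype.card_piFinset, nsmul_eq_mul] at h1
    push_cast at h1
    rw [← hPdef] at h1
    have h2 := (abs_le.1 h1).2
    have h3 : P * d p.1 p.2 ≤ P * η := mul_le_mul_of_nonneg_left (hd _ _ hp) hP
    linarith
  calc ∑ v ∈ Fintype.piFinset S, Dt H G v
      ≤ ∑ v ∈ Fintype.piFinset S, (-K + 2 * K *
          ∑ p ∈ (Finset.univ : Finset (W × W)).filter (fun p => p.1 ≠ p.2),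
            adj01 G (v p.1) (v p.2)) := Finset.sum_le_sum hpt
    _ = -K * P + 2 * K * ∑ p ∈ (Finset.univ : Finset (W × W)).filter (fun p => p.1 ≠ p.2),
          ∑ v ∈ Fintype.piFinset S, adj01 G (v p.1) (v p.2) := by
        rw [Finset.sum_add_distrib, Finset.sum_const, Fintype.card_piFinset, nsmul_eq_mul,
          ← Finset.mul_sum, Finset.sum_comm]
        push_cast
        ring
    _ ≤ -K * P + 2 * K * ((Fintype.card W) ^ 2 * ((η + ε) * P)) := by
        have h1 : ∑ p ∈ (Finset.univ : Finset (W × W)).filter (fun p => p.1 ≠ p.2),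
          ∑ v ∈ Fintype.piFinset S, adj01 G (v p.1) (v p.2) ≤
            (Fintype.card W) ^ 2 * ((η + ε) * P) := by
          calc _ ≤ ∑ _p ∈ (Finset.univ : Finset (W × W)).filter (fun p => p.1 ≠ p.2),
                (η + ε) * P :=
                Finset.sum_le_sum fun p hp => hadjsum p (Finset.mem_filter.1 hp).2
            _ ≤ _ := by
              rw [Finset.sum_const, nsmul_eq_mul]
              refine mul_le_mul_of_nonneg_right ?_ (mul_nonneg (by linarith) hP)
              have : #((Finset.univ : Finset (W × W)).filter (fun p => p.1 ≠ p.2)) ≤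
                  Fintype.card W ^ 2 := by
                refine (Finset.card_le_univ _).trans ?_
                rw [Fintype.card_prod, sq]
              exact_mod_cast this
        have h2 : 0 ≤ 2 * K := by linarith
        linarith [mul_le_mul_of_nonneg_left h1 h2]
    _ = _ := by ring

theorem high_case {H : SimpleGraph W} (hH : H ≠ ⊥) {G : SimpleGraph V} {S : W → Finset V}
    {d : W → W → ℝ} {ε η : ℝ} (hS : ∀ a b, a ≠ b → Disjoint (S a) (S b))
    (hreg : CutReg G S d ε) (hε : 0 ≤ ε) (hd : ∀ a b, a ≠ b → 1 - η ≤ d a b) (hη : 0 ≤ η) :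
    - ∑ v ∈ Fintype.piFinset S, Dt H G v ≤
      ((Fintype.card W).factorial : ℝ) *
        (-1 + 2 * (Fintype.card W) ^ 2 * (η + ε)) * ∏ w, (#(S w) : ℝ) := by
  have h := low_case hH hS (hreg.compl hS) hε (η := η) (fun a b hab => by
    have := hd a b hab
    linarith) hη
  simp only [Dt_compl, Finset.sum_neg_distrib] at h
  exact h

/-- all pairs intermediate -/
theorem mid_case {H : SimpleGraph W} {G : SimpleGraph V} {S : W → Finset V}
    {d : W → W → ℝ} {ε η : ℝ} (hS : ∀ a b, a ≠ b → Disjoint (S a) (S b))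
    (hreg : CutReg G S d ε) (hε : 0 ≤ ε) (hη0 : 0 ≤ η) (hη1 : η ≤ 1)
    (hd : ∀ a b, a ≠ b → η ≤ d a b ∧ d a b ≤ 1 - η) {a b : W} (hab : H.Adj a b) :
    (η ^ (H.edgeSet.ncard) - H.edgeSet.ncard * ε - 2 * ((Fintype.card W).factorial : ℝ) * ε) *
        ∏ w, (#(S w) : ℝ) ≤
      ∑ v ∈ Fintype.piFinset S, (adj01 G (v a) (v b) - d a b) * Dt H G v := by
  classical
  set P := ∏ w, (#(S w) : ℝ) with hPdef
  have hP : (0 : ℝ) ≤ P := Finset.prod_nonneg fun _ _ => by positivity
  have hne : a ≠ b := hab.ne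
  set m := H.edgeSet.ncard with hm
  -- the contribution of a single permutation
  set T : Equiv.Perm W → ℝ := fun σ => ∑ v ∈ Fintype.piFinset S, (adj01 G (v a) (v b) - d a b) *
    (hom01 H G (v ∘ σ) - hom01 H Gᶜ (v ∘ σ)) with hT
  have hsum : ∑ v ∈ Fintype.piFinset S, (adj01 G (v a) (v b) - d a b) * Dt H G v =
      ∑ σ : Equiv.Perm W, T σ := by
    rw [hT, Finset.sum_comm]
    refine Finset.sum_congr rfl fun v _ => ?_
    rw [Dt, Finset.mul_sum]
  have hcomap : ∀ (σ : Equiv.Perm W) (G' : SimpleGraph V) (v : W → V),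
      hom01 H G' (v ∘ σ) = hom01 (H.comap σ.symm) G' v := by
    intro σ G' v
    unfold hom01
    have : (∀ c e, H.Adj c e → G'.Adj ((v ∘ σ) c) ((v ∘ σ) e)) ↔
        (∀ c e, (H.comap σ.symm).Adj c e → G'.Adj (v c) (v e)) := by
      constructor
      · intro h c e hce
        have := h _ _ hce
        simpa using this
      · intro h c e hce
        apply h (σ c) (σ e)
        simpa using hce
    by_cases h2 : ∀ c e, H.Adj c e → G'.Adj ((v ∘ σ) c) ((v ∘ σ) e)
    · rw [if_pos h2, if_pos (this.1 h2)]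
    · rw [if_neg h2, if_neg (fun h3 => h2 (this.2 h3))]
  have hpos : ∀ (J : SimpleGraph W), J.Adj a b → ∀ v ∈ Fintype.piFinset S,
      (adj01 G (v a) (v b) - d a b) * (hom01 J G v - hom01 J Gᶜ v) =
        (1 - d a b) * hom01 J G v + d a b * hom01 J Gᶜ v := by
    intro J hJ v hv
    rw [Fintype.mem_piFinset] at hv
    have hv' : v a ≠ v b := ne_of_disj hS hne (hv a) (hv b)
    have e1 := hom01_delete hJ G v
    have e2 := hom01_delete hJ Gᶜ v
    rw [adj01_compl G hv'] at e2
    have hsq : adj01 G (v a) (v b) * adj01 G (v a) (v b) = adj01 G (v a) (v b) := by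
      unfold adj01; split_ifs <;> norm_num
    rw [e1, e2]
    linear_combination (hom01 (J.deleteEdges {s(a, b)}) G v +
      hom01 (J.deleteEdges {s(a, b)}) Gᶜ v) * hsq
  have hnonneg : ∀ σ, -(2 * ε * P) ≤ T σ := by
    intro σ
    rw [hT]
    simp only [hcomap]
    by_cases hJ : (H.comap σ.symm).Adj a b
    · rw [Finset.sum_congr rfl (hpos _ hJ)]
      have : 0 ≤ ∑ v ∈ Fintype.piFinset S, ((1 - d a b) * hom01 (H.comap σ.symm) G v +
          d a b * hom01 (H.comap σ.symm) Gᶜ v) := by
        refine Finset.sum_nonneg fun v _ => ?_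
        have h1 := hd a b hne
        have h2 := hom01_nonneg (H.comap σ.symm) G v
        have h3 := hom01_nonneg (H.comap σ.symm) Gᶜ v
        have h4 : 0 ≤ 1 - d a b := by linarith
        have h5 : 0 ≤ d a b := by linarith
        positivity
      have h6 : 0 ≤ 2 * ε * P := mul_nonneg (by linarith) hP
      linarith
    · have h1 := key_hom hreg hε hne _ hJ G
      have h2 := key_hom hreg hε hne _ hJ Gᶜ
      simp only [mul_sub, Finset.sum_sub_distrib]
      have h3 := (abs_le.1 h1).1
      have h4 := (abs_le.1 h2).2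
      linarith
  have hone : (η ^ m - m * ε) * P ≤ T 1 := by
    rw [hT]
    simp only [hcomap]
    have hJH : H.comap (1 : Equiv.Perm W).symm = H := by
      ext c e; exact Iff.rfl
    rw [hJH]
    rw [Finset.sum_congr rfl (hpos _ hab), Finset.sum_add_distrib, ← Finset.mul_sum,
      ← Finset.mul_sum]
    have h1 := sum_hom01_lower hreg hε hη0 hη1 (fun c e hce => (hd c e hce).1) m H hm.symm
    have h2 := sum_hom01_lower (hreg.compl hS) hε hη0 hη1 (fun c e hce => by
      have := (hd c e hce).2
      linarith) m H hm.symm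
    have h3 := hd a b hne
    have h4 : 0 ≤ 1 - d a b := by linarith
    have h5 : 0 ≤ d a b := by linarith
    have h6 := mul_le_mul_of_nonneg_left h1 h4
    have h7 := mul_le_mul_of_nonneg_left h2 h5
    linarith
  rw [hsum, ← Finset.add_sum_erase _ _ (Finset.mem_univ (1 : Equiv.Perm W))]
  have hrest : -(2 * ((Fintype.card W).factorial : ℝ) * ε * P) ≤
      ∑ σ ∈ (Finset.univ : Finset (Equiv.Perm W)).erase 1, T σ := by
    calc -(2 * ((Fintype.card W).factorial : ℝ) * ε * P)
        ≤ ∑ _σ ∈ (Finset.univ : Finset (Equiv.Perm W)).erase 1, -(2 * ε * P) := by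
          rw [Finset.sum_const, nsmul_eq_mul]
          have h1 : (#((Finset.univ : Finset (Equiv.Perm W)).erase 1) : ℝ) ≤
              (Fintype.card W).factorial := by
            have : #((Finset.univ : Finset (Equiv.Perm W)).erase 1) ≤
                (Fintype.card W).factorial := by
              refine (Finset.card_le_univ _).trans ?_
              rw [Fintype.card_perm]
            exact_mod_cast this
          have h2 : 0 ≤ 2 * ε * P := mul_nonneg (by linarith) hP
          nlinarith
      _ ≤ _ := Finset.sum_le_sum fun σ _ => hnonneg σ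
  have : (η ^ m - m * ε - 2 * ((Fintype.card W).factorial : ℝ) * ε) * P =
      (η ^ m - m * ε) * P + -(2 * ((Fintype.card W).factorial : ℝ) * ε * P) := by ring
  rw [this]
  exact add_le_add hone hrest

/-- from a correlated test function to a lower bound on the discrepancy -/
theorem lower_of_test [Fintype V] {H : SimpleGraph W} {G : SimpleGraph V} {S : W → Finset V}
    (hS : ∀ a b, a ≠ b → Disjoint (S a) (S b)) (M : ℝ) (hM : ∀ X : Finset V, |D H G X| ≤ M)
    {a b : W} (hab : a ≠ b) (α : V → V → ℝ) (hα : ∀ x y, |α x y| ≤ 1) :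
    |∑ v ∈ Fintype.piFinset S, α (v a) (v b) * Dt H G v| ≤
      8 * Real.sqrt (Fintype.card V) * (2 ^ (Fintype.card W) * M) := by
  set T : V → V → ℝ := fun x y =>
    ∑ v ∈ Fintype.piFinset (Function.update (Function.update S a {x}) b {y}), Dt H G v with hT
  have hM0 : 0 ≤ M := (abs_nonneg _).trans (hM ∅)
  have hcut : ∀ A ⊆ S a, ∀ B ⊆ S b, |∑ x ∈ A, ∑ y ∈ B, T x y| ≤ 2 ^ (Fintype.card W) * M := by
    intro A hA B hB
    rw [hT]
    simp only
    rw [← sum_pi_fiber₂ S hab A B (Dt H G)]
    refine abs_sum_Dt_le H G M hM _ ?_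
    have hsub : ∀ c, Function.update (Function.update S a A) b B c ⊆ S c := by
      intro c
      by_cases hcb : c = b
      · subst hcb; rw [Function.update_self]; exact hB
      · rw [Function.update_of_ne hcb]
        by_cases hca : c = a
        · subst hca; rw [Function.update_self]; exact hA
        · rw [Function.update_of_ne hca]
    intro c e hce
    exact Finset.disjoint_of_subset_left (hsub c)
      (Finset.disjoint_of_subset_right (hsub e) (hS c e hce))
  have h1 := sum_abs_le_of_cut T _ hcut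
  have hself : Function.update (Function.update S a (S a)) b (S b) = S := by
    simp
  have h2 : ∑ v ∈ Fintype.piFinset S, α (v a) (v b) * Dt H G v =
      ∑ x ∈ S a, ∑ y ∈ S b, α x y * T x y := by
    conv_lhs => rw [← hself]
    rw [sum_pi_fiber₂ S hab (S a) (S b) (fun v => α (v a) (v b) * Dt H G v)]
    refine Finset.sum_congr rfl fun x _ => Finset.sum_congr rfl fun y _ => ?_
    rw [hT, Finset.mul_sum]
    refine Finset.sum_congr rfl fun v hv => ?_
    rw [Fintype.mem_piFinset] at hv
    have ha := hv a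
    have hb := hv b
    rw [Function.update_self, Finset.mem_singleton] at hb
    rw [Function.update_of_ne hab, Function.update_self, Finset.mem_singleton] at ha
    rw [ha, hb]
  rw [h2]
  calc |∑ x ∈ S a, ∑ y ∈ S b, α x y * T x y|
      ≤ ∑ x ∈ S a, |∑ y ∈ S b, α x y * T x y| := Finset.abs_sum_le_sum_abs _ _
    _ ≤ ∑ x ∈ S a, ∑ y ∈ S b, |α x y * T x y| :=
        Finset.sum_le_sum fun x _ => Finset.abs_sum_le_sum_abs _ _
    _ ≤ ∑ x ∈ S a, ∑ y ∈ S b, |T x y| := by
        refine Finset.sum_le_sum fun x _ => Finset.sum_le_sum fun y _ => ?_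
        rw [abs_mul]
        calc |α x y| * |T x y| ≤ 1 * |T x y| :=
              mul_le_mul_of_nonneg_right (hα x y) (abs_nonneg _)
          _ = |T x y| := one_mul _
    _ ≤ 8 * Real.sqrt (#(S a)) * (2 ^ (Fintype.card W) * M) := h1
    _ ≤ 8 * Real.sqrt (Fintype.card V) * (2 ^ (Fintype.card W) * M) := by
        refine mul_le_mul_of_nonneg_right ?_ (by positivity)
        refine mul_le_mul_of_nonneg_left (Real.sqrt_le_sqrt ?_) (by norm_num)
        exact_mod_cast Finset.card_le_univ _

end Pool.Agent.H.MP_e6b4fa_co
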