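import Mathlib
import Pool.Agent.H.MP_e6b4fa_co.Struct
import Pool.Agent.H.MP_e6b4fa_co.Ramsey

/-!
# The lower bound
-/

namespace Pool.Agent.H.MP_e6b4fa_co

open Finset SimpleGraph

variable {V W : Type*}

theorem sum_adj01 (G : SimpleGraph V) [DecidableRel G.Adj] (A B : Finset V) :
    ∑ x ∈ A, ∑ y ∈ B, adj01 G x y = (#(G.interedges A B) : ℝ) := by
  rw [interedges_def, Finset.card_filter, Finset.sum_product]
  push_cast
  refine Finset.sum_congr rfl fun x _ => Finset.sum_congr rfl fun y _ => ?_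
  unfold adj01
  by_cases h : G.Adj x y
  · rw [if_pos h, if_pos h]
  · rw [if_neg h, if_neg h]

theorem uniform_cut (G : SimpleGraph V) [DecidableRel G.Adj] {ε : ℝ} (hε : 0 < ε)
    {P Q : Finset V} (h : G.IsUniform ε P Q) {A B : Finset V} (hA : A ⊆ P) (hB : B ⊆ Q) :
    |∑ x ∈ A, ∑ y ∈ B, (adj01 G x y - (G.edgeDensity P Q : ℝ))| ≤ ε * (#P * #Q) := by
  have e1 : ∑ x ∈ A, ∑ y ∈ B, (adj01 G x y - (G.edgeDensity P Q : ℝ)) =
      (#(G.interedges A B) : ℝ) - (G.edgeDensity P Q : ℝ) * (#A * #B) := by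
    simp only [Finset.sum_sub_distrib]
    rw [sum_adj01]
    simp only [Finset.sum_const, nsmul_eq_mul]
    ring
  rw [e1]
  have hAP : (#A : ℝ) ≤ #P := by exact_mod_cast Finset.card_le_card hA
  have hBQ : (#B : ℝ) ≤ #Q := by exact_mod_cast Finset.card_le_card hB
  have hA0 : (0 : ℝ) ≤ #A := Nat.cast_nonneg _
  have hB0 : (0 : ℝ) ≤ #B := Nat.cast_nonneg _
  have hABPQ : (#A : ℝ) * #B ≤ #P * #Q := mul_le_mul hAP hBQ hB0 (hA0.trans hAP)
  have hd0 : (0 : ℝ) ≤ (G.edgeDensity P Q : ℝ) := by exact_mod_cast G.edgeDensity_nonneg P Q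
  have hd1 : (G.edgeDensity P Q : ℝ) ≤ 1 := by exact_mod_cast G.edgeDensity_le_one P Q
  have hi0 : (0 : ℝ) ≤ (#(G.interedges A B) : ℝ) := Nat.cast_nonneg _
  have hi1 : (#(G.interedges A B) : ℝ) ≤ #A * #B := by
    exact_mod_cast G.card_interedges_le_mul A B
  by_cases hbig : (#P : ℝ) * ε ≤ #A ∧ (#Q : ℝ) * ε ≤ #B
  · have h1 := h hA hB hbig.1 hbig.2
    by_cases hz : (#A : ℝ) * #B = 0
    · rw [hz] at hi1 ⊢
      have : (#(G.interedges A B) : ℝ) = 0 := le_antisymm hi1 hi0
      rw [this]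
      simp only [mul_zero, sub_zero, abs_zero]
      positivity
    · have hpos : 0 < (#A : ℝ) * #B := lt_of_le_of_ne (mul_nonneg hA0 hB0) (Ne.symm hz)
      have e2 : (#(G.interedges A B) : ℝ) = (G.edgeDensity A B : ℝ) * (#A * #B) := by
        rw [edgeDensity_def]
        push_cast
        rw [div_mul_cancel₀ _ hz]
      rw [e2, ← sub_mul, abs_mul, abs_of_pos hpos]
      calc |(G.edgeDensity A B : ℝ) - (G.edgeDensity P Q : ℝ)| * (#A * #B)
          ≤ ε * (#A * #B) := mul_le_mul_of_nonneg_right h1.le hpos.le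
        _ ≤ ε * (#P * #Q) := mul_le_mul_of_nonneg_left hABPQ hε.le
  · have h2 : (#A : ℝ) * #B ≤ ε * (#P * #Q) := by
      rw [not_and_or, not_le, not_le] at hbig
      rcases hbig with hb | hb
      · calc (#A : ℝ) * #B ≤ (#P * ε) * #Q := mul_le_mul hb.le hBQ hB0 (by positivity)
          _ = ε * (#P * #Q) := by ring
      · calc (#A : ℝ) * #B ≤ #P * (#Q * ε) := mul_le_mul hAP hb.le hB0 (hA0.trans hAP)
          _ = ε * (#P * #Q) := by ring
    have h3 : 0 ≤ (G.edgeDensity P Q : ℝ) * (#A * #B) := by positivity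
    have h4 : (G.edgeDensity P Q : ℝ) * (#A * #B) ≤ 1 * (#A * #B) :=
      mul_le_mul_of_nonneg_right hd1 (by positivity)
    rw [abs_le]
    constructor <;> linarith

/-- density classes -/
noncomputable def cls (η x : ℝ) : Fin 3 := if x < η then 0 else if x ≤ 1 - η then 1 else 2

theorem cls_spec (η x : ℝ) :
    (cls η x = 0 → x ≤ η) ∧ (cls η x = 1 → η ≤ x ∧ x ≤ 1 - η) ∧ (cls η x = 2 → 1 - η ≤ x) := by
  unfold cls
  by_cases h1 : x < η
  · rw [if_pos h1]
    refine ⟨fun _ => h1.le, fun h => ?_, fun h => ?_⟩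
    · exact absurd h (by decide)
    · exact absurd h (by decide)
  · rw [if_neg h1]
    by_cases h2 : x ≤ 1 - η
    · rw [if_pos h2]
      refine ⟨fun h => ?_, fun _ => ⟨not_lt.1 h1, h2⟩, fun h => ?_⟩
      · exact absurd h (by decide)
      · exact absurd h (by decide)
    · rw [if_neg h2]
      refine ⟨fun h => ?_, fun h => ?_, fun _ => (not_le.1 h2).le⟩
      · exact absurd h (by decide)
      · exact absurd h (by decide)

/-- A large graph has a family of big disjoint sets, one for each vertex of `W`, pairwise uniform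
and with all densities in the same class. -/
theorem exists_family [Fintype W] [DecidableEq W] (ε η : ℝ) (hε : 0 < ε) :
    ∃ β > (0 : ℝ), ∃ n₀ : ℕ, ∀ n ≥ n₀, ∀ G : SimpleGraph (Fin n),
      ∃ (S : W → Finset (Fin n)) (d : W → W → ℝ) (c : Fin 3),
        (∀ a b, a ≠ b → Disjoint (S a) (S b)) ∧ (∀ a, β * n ≤ #(S a)) ∧
        CutReg G S d ε ∧ ∀ a b, a ≠ b → cls η (d a b) = c := by
  classical
  obtain ⟨R₀, hR₀⟩ := ramsey (Fin 3) (Fintype.card W)
  set R := max R₀ 2 with hR
  have hR2 : 2 ≤ R := le_max_right _ _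
  have hRpos : (0 : ℝ) < R := by
    have : 0 < R := by omega
    exact_mod_cast this
  set ε' : ℝ := min ε (1 / (2 * (R : ℝ) ^ 2)) with hε'
  have hε'pos : 0 < ε' := lt_min hε (by positivity)
  set l : ℕ := 2 * R ^ 2 + 1 with hl
  set N := SzemerediRegularity.bound ε' l with hN
  have hNpos : 0 < N := SzemerediRegularity.bound_pos _ _
  have hNposR : (0 : ℝ) < N := by exact_mod_cast hNpos
  refine ⟨1 / (2 * N), by positivity, max l (2 * N), ?_⟩
  intro n hn G
  have hnl : l ≤ Fintype.card (Fin n) := by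
    rw [Fintype.card_fin]; exact (le_max_left _ _).trans hn
  have hnN : 2 * N ≤ n := (le_max_right _ _).trans hn
  obtain ⟨P, hPeq, hlP, hPN, hPunif⟩ := szemeredi_regularity G hε'pos hnl
  set m := #P.parts with hm
  -- bad pairs
  let β := {x // x ∈ P.parts}
  have hβ : Fintype.card β = m := by simp [β, hm]
  let B : Finset (β × β) := (Finset.univ : Finset (β × β)).filter
    (fun p => p.1 = p.2 ∨ ¬ G.IsUniform ε' p.1.1 p.2.1)
  have hBcard : #B ≤ m + #(P.nonUniforms G ε') := by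
    have h1 : B ⊆ (Finset.univ : Finset (β × β)).filter (fun p => p.1 = p.2) ∪
        (Finset.univ : Finset (β × β)).filter
          (fun p => p.1 ≠ p.2 ∧ ¬ G.IsUniform ε' p.1.1 p.2.1) := by
      intro p hp
      simp only [B, Finset.mem_filter, Finset.mem_univ, true_and, Finset.mem_union] at hp ⊢
      by_cases h : p.1 = p.2
      · exact Or.inl h
      · exact Or.inr ⟨h, hp.resolve_left h⟩
    refine (Finset.card_le_card h1).trans ((Finset.card_union_le _ _).trans ?_)
    refine add_le_add ?_ ?_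
    · rw [← hβ, ← Finset.card_univ]
      refine Finset.card_le_card_of_injOn (fun p => p.1) (fun _ _ => Finset.mem_univ _) ?_
      rintro ⟨p, q⟩ hp ⟨p', q'⟩ hp' h
      simp only [Finset.coe_filter, Finset.mem_univ, true_and, Set.mem_ofPred_eq] at hp hp' h
      subst hp hp' h
      rfl
    · refine Finset.card_le_card_of_injOn (fun p => (p.1.1, p.2.1)) ?_ ?_
      · rintro ⟨p, q⟩ hp
        simp only [Finset.coe_filter, Finset.mem_univ, true_and, Set.mem_ofPred_eq] at hp
        simp only [Finset.mem_coe, Finpartition.mk_mem_nonUniforms]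
        exact ⟨p.2, q.2, fun h => hp.1 (Subtype.ext h), hp.2⟩
      · rintro ⟨p, q⟩ _ ⟨p', q'⟩ _ h
        simp only [Prod.mk.injEq] at h
        exact Prod.ext (Subtype.ext h.1) (Subtype.ext h.2)
  have hmpos : (0 : ℝ) < m := by
    have : 0 < m := by omega
    exact_mod_cast this
  have hmbig : 2 * (R : ℝ) ^ 2 + 1 ≤ m := by exact_mod_cast hlP
  have hBlt : R ^ 2 * #B < Fintype.card β ^ 2 := by
    rw [hβ]
    have h1 : (#(P.nonUniforms G ε') : ℝ) ≤ (m * (m - 1) : ℕ) * ε' := hPunif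
    have h2 : ((m * (m - 1) : ℕ) : ℝ) ≤ (m : ℝ) ^ 2 := by
      have : m * (m - 1) ≤ m ^ 2 := by rw [sq]; exact Nat.mul_le_mul_left _ (by omega)
      exact_mod_cast this
    have h3 : (R : ℝ) ^ 2 * ε' ≤ 1 / 2 := by
      calc (R : ℝ) ^ 2 * ε' ≤ (R : ℝ) ^ 2 * (1 / (2 * (R : ℝ) ^ 2)) :=
            mul_le_mul_of_nonneg_left (min_le_right _ _) (by positivity)
        _ = 1 / 2 := by field_simp
    have h4 : ((R ^ 2 * #B : ℕ) : ℝ) < ((m ^ 2 : ℕ) : ℝ) := by
      push_cast
      have h5 : (#B : ℝ) ≤ m + #(P.nonUniforms G ε') := by exact_mod_cast hBcard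
      have h6 : (#B : ℝ) ≤ m + (m : ℝ) ^ 2 * ε' :=
        h5.trans (by linarith [mul_le_mul_of_nonneg_right h2 hε'pos.le])
      calc (R : ℝ) ^ 2 * #B ≤ (R : ℝ) ^ 2 * (m + (m : ℝ) ^ 2 * ε') :=
            mul_le_mul_of_nonneg_left h6 (by positivity)
        _ = (R : ℝ) ^ 2 * m + (m : ℝ) ^ 2 * ((R : ℝ) ^ 2 * ε') := by ring
        _ ≤ (R : ℝ) ^ 2 * m + (m : ℝ) ^ 2 * (1 / 2) := by
            linarith [mul_le_mul_of_nonneg_left h3 (sq_nonneg (m : ℝ))]
        _ < (m : ℝ) ^ 2 := by nlinarith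
    exact_mod_cast h4
  obtain ⟨φ, hφ⟩ := exists_good_map R hR2 B hBlt
  have hφ' : ∀ i j, i ≠ j → φ i ≠ φ j ∧ G.IsUniform ε' (φ i).1 (φ j).1 := by
    intro i j hij
    have := hφ i j hij
    simp only [B, Finset.mem_filter, Finset.mem_univ, true_and] at this
    push Not at this
    exact this
  obtain ⟨a, c, hainj, -, hac⟩ := hR₀ (Finset.univ : Finset (Fin R))
    (fun i j => cls η (G.edgeDensity (φ i).1 (φ j).1 : ℝ))
    (fun i j => by rw [edgeDensity_comm]) (by
      rw [Finset.card_univ, Fintype.card_fin]; exact le_max_left _ _)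
  let e : W ≃ Fin (Fintype.card W) := Fintype.equivFin W
  have hne : ∀ w w', w ≠ w' → a (e w) ≠ a (e w') := by
    intro w w' h h'
    exact h (e.injective (hainj h'))
  refine ⟨fun w => (φ (a (e w))).1, fun w w' =>
    (G.edgeDensity (φ (a (e w))).1 (φ (a (e w'))).1 : ℝ), c, ?_, ?_, ?_, ?_⟩
  · intro w w' hww'
    refine P.disjoint (φ (a (e w))).2 (φ (a (e w'))).2 ?_
    intro h
    exact (hφ' _ _ (hne w w' hww')).1 (Subtype.ext h)
  · intro w
    have h1 : n / m ≤ #((φ (a (e w))).1) := by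
      have := hPeq.average_le_card_part (φ (a (e w))).2
      rwa [Finset.card_univ, Fintype.card_fin] at this
    have h2 : n / N ≤ n / m := Nat.div_le_div_left hPN (by omega)
    have h3 : (n : ℝ) / N - 1 < ((n / N : ℕ) : ℝ) := by
      have := Nat.lt_floor_add_one ((n : ℝ) / N)
      rw [Nat.floor_div_natCast, Nat.floor_natCast] at this
      linarith
    have h4 : ((n / N : ℕ) : ℝ) ≤ #((φ (a (e w))).1) := by exact_mod_cast h2.trans h1
    have h5 : (1 : ℝ) ≤ 1 / (2 * N) * n := by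
      rw [one_div, inv_mul_eq_div, le_div_iff₀ (by positivity), one_mul]
      exact_mod_cast hnN
    have h6 : (n : ℝ) / N = 2 * (1 / (2 * N) * n) := by field_simp
    linarith
  · intro w w' hww' A hA C hC
    refine (uniform_cut G hε'pos (hφ' _ _ (hne w w' hww')).2 hA hC).trans ?_
    exact mul_le_mul_of_nonneg_right (min_le_left _ _) (by positivity)
  · intro w w' hww'
    exact hac _ _ (fun h => hne w w' hww' (by rw [h]))

theorem lower_main [Fintype W] [DecidableEq W] (H : SimpleGraph W) (hH : H ≠ ⊥) :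
    ∃ c > (0 : ℝ), ∃ n₀ : ℕ, ∀ n ≥ n₀, ∀ (G : SimpleGraph (Fin n)) (M : ℝ),
      (∀ X : Finset (Fin n), |D H G X| ≤ M) →
        c * ((n : ℝ) ^ (Fintype.card W - 1) * Real.sqrt n) ≤ M := by
  classical
  obtain ⟨a, b, hab⟩ := ne_bot_iff_exists_adj.1 hH
  have hne : a ≠ b := hab.ne
  set k := Fintype.card W with hk
  have hk1 : 1 < k := Fintype.one_lt_card_iff.2 ⟨a, b, hne⟩
  have hkpos : (0 : ℝ) < k := by
    have : 0 < k := by omega
    exact_mod_cast this
  have hk1R : (1 : ℝ) ≤ k := by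
    have : 1 ≤ k := by omega
    exact_mod_cast this
  set m := H.edgeSet.ncard with hm
  set K : ℝ := (k.factorial : ℝ) with hK
  have hK1 : 1 ≤ K := by
    have h0 : 1 ≤ k.factorial := Nat.succ_le_of_lt k.factorial_pos
    rw [hK]
    exact_mod_cast h0
  set η : ℝ := 1 / (8 * (k : ℝ) ^ 2) with hη
  have hηpos : 0 < η := by positivity
  have hη1 : η ≤ 1 := by
    rw [hη, div_le_one (by positivity)]
    nlinarith
  set ε : ℝ := min η (η ^ m / (2 * (m + 2 * K))) with hε
  have hmK : (0 : ℝ) < 2 * (m + 2 * K) := by positivity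
  have hεpos : 0 < ε := lt_min hηpos (by positivity)
  have hεη : ε ≤ η := min_le_left _ _
  have hε2 : (m + 2 * K) * ε ≤ η ^ m / 2 := by
    calc (m + 2 * K) * ε ≤ (m + 2 * K) * (η ^ m / (2 * (m + 2 * K))) :=
          mul_le_mul_of_nonneg_left (min_le_right _ _) (by positivity)
      _ = η ^ m / 2 := by field_simp
  have hsmall : 2 * (k : ℝ) ^ 2 * (η + ε) ≤ 1 / 2 := by
    calc 2 * (k : ℝ) ^ 2 * (η + ε) ≤ 2 * (k : ℝ) ^ 2 * (η + η) :=
          mul_le_mul_of_nonneg_left (by linarith) (by positivity)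
      _ = 1 / 2 := by rw [hη]; field_simp; norm_num
  have hηm1 : η ^ m ≤ 1 := pow_le_one₀ hηpos.le hη1
  obtain ⟨β, hβ, n₀, hfam⟩ := exists_family (W := W) ε η hεpos
  refine ⟨η ^ m / 2 * β ^ k / (8 * 2 ^ k), by positivity, max n₀ 1, ?_⟩
  intro n hn G M hM
  have hn0 : n₀ ≤ n := (le_max_left _ _).trans hn
  have hn1 : 1 ≤ n := (le_max_right _ _).trans hn
  have hnpos : (0 : ℝ) < n := by exact_mod_cast hn1
  obtain ⟨S, d, c, hS, hcard, hreg, hcls⟩ := hfam n hn0 G
  set P := ∏ w, (#(S w) : ℝ) with hP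
  have hPge : (β * n) ^ k ≤ P := by
    have : ∏ _w : W, (β * n : ℝ) ≤ P :=
      Finset.prod_le_prod (fun _ _ => by positivity) (fun w _ => hcard w)
    rwa [Finset.prod_const, Finset.card_univ] at this
  have hPnn : 0 ≤ P := le_trans (by positivity) hPge
  -- main claim: correlation
  have hmain : η ^ m / 2 * P ≤ 8 * Real.sqrt n * (2 ^ k * M) := by
    have hfin : c = 0 ∨ c = 1 ∨ c = 2 := by
      fin_cases c <;> simp
    rcases hfin with rfl | rfl | rfl
    · have h1 := low_case hH hS hreg hεpos.le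
        (fun a b hab => (cls_spec η (d a b)).1 (hcls a b hab)) hηpos.le
      have h2 := lower_of_test hS M hM hne (fun _ _ => 1) (by simp)
      simp only [one_mul] at h2
      rw [Fintype.card_fin] at h2
      have h3 : K * (-1 + 2 * (k : ℝ) ^ 2 * (η + ε)) * P ≤ -(η ^ m / 2 * P) := by
        have : K * (-1 + 2 * (k : ℝ) ^ 2 * (η + ε)) ≤ -(η ^ m / 2) := by
          nlinarith
        nlinarith
      have h4 := (abs_le.1 h2).1
      linarith
    · have h1 := mid_case hS hreg hεpos.le hηpos.le hη1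
        (fun a b hab => (cls_spec η (d a b)).2.1 (hcls a b hab)) hab
      have h2 := lower_of_test hS M hM hne (fun x y => adj01 G x y - d a b) (by
        intro x y
        have h3 := (cls_spec η (d a b)).2.1 (hcls a b hne)
        rw [abs_le]
        constructor <;> linarith [adj01_nonneg G x y, adj01_le_one G x y])
      rw [Fintype.card_fin] at h2
      have h3 : η ^ m / 2 ≤ η ^ m - m * ε - 2 * K * ε := by linarith
      have h4 : η ^ m / 2 * P ≤ (η ^ m - m * ε - 2 * K * ε) * P :=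
        mul_le_mul_of_nonneg_right h3 hPnn
      have h5 := (abs_le.1 h2).2
      exact h4.trans (h1.trans h5)
    · have h1 := high_case hH hS hreg hεpos.le
        (fun a b hab => (cls_spec η (d a b)).2.2 (hcls a b hab)) hηpos.le
      have h2 := lower_of_test hS M hM hne (fun _ _ => 1) (by simp)
      simp only [one_mul] at h2
      rw [Fintype.card_fin] at h2
      have h3 : K * (-1 + 2 * (k : ℝ) ^ 2 * (η + ε)) * P ≤ -(η ^ m / 2 * P) := by
        have : K * (-1 + 2 * (k : ℝ) ^ 2 * (η + ε)) ≤ -(η ^ m / 2) := by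
          nlinarith
        nlinarith
      have h4 := (abs_le.1 h2).2
      linarith
  have hsq : Real.sqrt n * Real.sqrt n = n := Real.mul_self_sqrt hnpos.le
  have hspos : 0 < Real.sqrt n := Real.sqrt_pos.2 hnpos
  have h1 : η ^ m / 2 * (β ^ k * ((n : ℝ) ^ (k - 1) * (Real.sqrt n * Real.sqrt n))) ≤
      8 * Real.sqrt n * (2 ^ k * M) := by
    refine le_trans ?_ hmain
    refine mul_le_mul_of_nonneg_left ?_ (by positivity)
    refine le_trans (le_of_eq ?_) hPge
    rw [hsq, mul_pow, ← pow_succ]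
    congr 2
    omega
  have h2 : Real.sqrt n * (η ^ m / 2 * β ^ k / (8 * 2 ^ k) * ((n : ℝ) ^ (k - 1) * Real.sqrt n)) ≤
      Real.sqrt n * M := by
    have e1 : Real.sqrt n * (η ^ m / 2 * β ^ k / (8 * 2 ^ k) *
        ((n : ℝ) ^ (k - 1) * Real.sqrt n)) =
        (η ^ m / 2 * (β ^ k * ((n : ℝ) ^ (k - 1) * (Real.sqrt n * Real.sqrt n)))) /
          (8 * 2 ^ k) := by ring
    rw [e1, div_le_iff₀ (by positivity)]
    linarith
  exact le_of_mul_le_mul_left h2 hspos

end Pool.Agent.H.MP_e6b4fa_co
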